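import Mathlib

set_option autoImplicit false

namespace Pool.Agent.W_e21d3a_h20

/-- powers of 2 and 3 are close to each other, relative to their size -/
theorem approx (C : ℕ) : ∃ u w : ℕ, ∃ a b : ℕ, ((a = 3 ^ u ∧ b = 2 ^ w) ∨ (a = 2 ^ w ∧ b = 3 ^ u)) ∧
    b < a ∧ C * (a - b) ≤ b := by
  have hl2 : 0 < Real.log 2 := Real.log_pos (by norm_num)
  have hl3 : 0 < Real.log 3 := Real.log_pos (by norm_num)
  set ξ : ℝ := Real.log 3 / Real.log 2 with hξ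
  obtain ⟨k, hk0, hk1, hk2⟩ := Real.exists_nat_abs_mul_sub_round_le ξ (n := 4 * C + 4) (by omega)
  have hξ1 : 1 < ξ := by
    rw [hξ, lt_div_iff₀ hl2, one_mul]
    exact Real.log_lt_log (by norm_num) (by norm_num)
  have hkr : (1:ℝ) ≤ k := by exact_mod_cast hk0
  have hrpos : 0 < round ((k:ℝ) * ξ) := by
    have h1 : (1:ℝ) < k * ξ := by nlinarith
    rw [round_eq]
    apply Int.floor_pos.mpr
    linarith
  obtain ⟨w, hw⟩ := Int.eq_ofNat_of_zero_le hrpos.le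
  have hwr : ((round ((k:ℝ) * ξ) : ℤ) : ℝ) = (w:ℝ) := by rw [hw]; simp
  rw [hwr] at hk2
  have hN : (0:ℝ) < ((4 * C + 4 : ℕ) : ℝ) + 1 := by positivity
  -- |k log 3 - w log 2| ≤ log 2 / (4C+5)
  have hab : |(k:ℝ) * Real.log 3 - w * Real.log 2| ≤ 1 / (((4 * C + 4 : ℕ) : ℝ) + 1) := by
    have e : (k:ℝ) * Real.log 3 - w * Real.log 2 = ((k:ℝ) * ξ - w) * Real.log 2 := by
      rw [hξ]; field_simp
    rw [e, abs_mul, abs_of_pos hl2]
    have h2 : Real.log 2 ≤ 1 := by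
      have := Real.log_two_lt_d9; linarith
    calc |(k:ℝ) * ξ - w| * Real.log 2 ≤ |(k:ℝ) * ξ - w| * 1 :=
          mul_le_mul_of_nonneg_left h2 (abs_nonneg _)
      _ ≤ _ := by rw [mul_one]; exact hk2
  set δ : ℝ := (k:ℝ) * Real.log 3 - w * Real.log 2 with hδ
  have hexp : (3:ℝ) ^ k = 2 ^ w * Real.exp δ := by
    have h3 : (3:ℝ) ^ k = Real.exp (k * Real.log 3) := by
      rw [mul_comm, Real.exp_mul, Real.exp_log (by norm_num)]; simp
    have h2 : (2:ℝ) ^ w = Real.exp (w * Real.log 2) := by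
      rw [mul_comm, Real.exp_mul, Real.exp_log (by norm_num)]; simp
    rw [h3, h2, ← Real.exp_add]
    congr 1; rw [hδ]; ring
  have hδ1 : |δ| ≤ 1 := by
    refine hab.trans ?_
    rw [div_le_one hN]
    push_cast; nlinarith [Nat.cast_nonneg (α := ℝ) C]
  have hbd : |Real.exp δ - 1| ≤ 2 * |δ| := by
    have := Real.abs_exp_sub_one_le hδ1
    exact this
  have hsmall : (C:ℝ) * (2 * |δ|) ≤ 1 / 2 := by
    have h1 : (C:ℝ) * (2 * |δ|) ≤ C * (2 * (1 / (((4 * C + 4 : ℕ) : ℝ) + 1))) := by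
      gcongr
    refine h1.trans ?_
    rw [show (C:ℝ) * (2 * (1 / (((4 * C + 4 : ℕ) : ℝ) + 1))) = (2 * C) / (((4 * C + 4 : ℕ) : ℝ) + 1) by ring]
    rw [div_le_div_iff₀ hN (by norm_num)]
    push_cast; nlinarith [Nat.cast_nonneg (α := ℝ) C]
  have hδs : 2 * |δ| ≤ 1 / 2 := by
    have h1 : 2 * |δ| ≤ 2 * (1 / (((4 * C + 4 : ℕ) : ℝ) + 1)) := by gcongr
    refine h1.trans ?_
    rw [show (2:ℝ) * (1 / (((4 * C + 4 : ℕ) : ℝ) + 1)) = 2 / (((4 * C + 4 : ℕ) : ℝ) + 1) by ring]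
    rw [div_le_div_iff₀ hN (by norm_num)]
    push_cast; nlinarith [Nat.cast_nonneg (α := ℝ) C]
  have h2w : (0:ℝ) < 2 ^ w := by positivity
  have hdiff : |(3:ℝ) ^ k - 2 ^ w| ≤ 2 ^ w * (2 * |δ|) := by
    rw [hexp, show (2:ℝ) ^ w * Real.exp δ - 2 ^ w = 2 ^ w * (Real.exp δ - 1) by ring, abs_mul,
      abs_of_pos h2w]
    gcongr
  have hne : 3 ^ k ≠ 2 ^ w := by
    intro h
    rcases Nat.eq_zero_or_pos w with h0 | h0
    · subst h0
      have : 3 ^ 1 ≤ 3 ^ k := Nat.pow_le_pow_right (by norm_num) hk0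
      omega
    · have h1 : Odd (3 ^ k) := Odd.pow (by decide)
      rw [h] at h1
      have h2 : Even (2 ^ w) := (Nat.even_pow' (by omega)).2 (by decide)
      exact (Nat.not_even_iff_odd.2 h1) h2
  have hC : (0:ℝ) ≤ C := Nat.cast_nonneg C
  have hCd : (C:ℝ) * |(3:ℝ) ^ k - 2 ^ w| ≤ 2 ^ w * (1 / 2) := by
    calc (C:ℝ) * |(3:ℝ) ^ k - 2 ^ w| ≤ C * (2 ^ w * (2 * |δ|)) := by gcongr
      _ = 2 ^ w * (C * (2 * |δ|)) := by ring
      _ ≤ 2 ^ w * (1 / 2) := by gcongr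
  have h3low : (2:ℝ) ^ w * (1 / 2) ≤ 3 ^ k := by
    have h1 : |(3:ℝ) ^ k - 2 ^ w| ≤ 2 ^ w * (1 / 2) := hdiff.trans (by gcongr)
    have h2 := (abs_le.1 h1).1
    linarith
  rcases lt_or_gt_of_ne hne with h | h
  · refine ⟨k, w, 2 ^ w, 3 ^ k, Or.inr ⟨rfl, rfl⟩, h, ?_⟩
    have : ((C * (2 ^ w - 3 ^ k) : ℕ) : ℝ) ≤ ((3 ^ k : ℕ) : ℝ) := by
      rw [Nat.cast_mul, Nat.cast_sub h.le]
      push_cast
      have h4 : (3:ℝ) ^ k < 2 ^ w := by exact_mod_cast h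
      rw [abs_of_neg (by linarith)] at hCd
      linarith
    exact_mod_cast this
  · refine ⟨k, w, 3 ^ k, 2 ^ w, Or.inl ⟨rfl, rfl⟩, h, ?_⟩
    have : ((C * (3 ^ k - 2 ^ w) : ℕ) : ℝ) ≤ ((2 ^ w : ℕ) : ℝ) := by
      rw [Nat.cast_mul, Nat.cast_sub h.le]
      push_cast
      have h4 : (2:ℝ) ^ w < 3 ^ k := by exact_mod_cast h
      rw [abs_of_pos (by linarith)] at hCd
      linarith
    exact_mod_cast this

end Pool.Agent.W_e21d3a_h20
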