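import Mathlib

set_option autoImplicit false

namespace Pool.Agent.W_e21d3a_h20

/-- the two invariance rules of a Collatz-invariant predicate -/
structure Inv (g : ℕ → Prop) : Prop where
  dbl : ∀ n, 0 < n → (g (2 * n) ↔ g n)
  odd : ∀ n, (g (2 * n + 1) ↔ g (3 * n + 2))

variable {g : ℕ → Prop}

/-- the class `2 ^ i * n + r` is equivalent to the class `3 ^ M * n + b` -/
def E (g : ℕ → Prop) (M b i : ℕ) : Prop :=
  b < 3 ^ M ∧ ∃ r, r < 2 ^ i ∧ ∀ n, 0 < n → (g (2 ^ i * n + r) ↔ g (3 ^ M * n + b))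

theorem E_zero (hg : Inv g) (i : ℕ) : E g 0 0 i := by
  refine ⟨by norm_num, 0, by positivity, ?_⟩
  induction i with
  | zero => intro n hn; simp
  | succ i ih =>
    intro n hn
    have h1 : 2 ^ (i + 1) * n + 0 = 2 * (2 ^ i * n) := by ring
    rw [h1, hg.dbl _ (by positivity)]
    simpa using ih n hn

/-- halving step -/
theorem E_half (hg : Inv g) {M b i c e : ℕ} (h : E g M b i) (he : e < 2)
    (hc : 3 ^ M * e + b = 2 * c) : E g M c (i + 1) := by
  obtain ⟨hb, r, hr, h⟩ := h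
  refine ⟨?_, 2 ^ i * e + r, ?_, ?_⟩
  · have : e ≤ 1 := by omega
    nlinarith [Nat.mul_le_mul_left (3 ^ M) this]
  · rw [pow_succ]
    have : e ≤ 1 := by omega
    nlinarith [Nat.mul_le_mul_left (2 ^ i) this]
  · intro n hn
    have h1 : 2 ^ (i + 1) * n + (2 ^ i * e + r) = 2 ^ i * (2 * n + e) + r := by ring
    rw [h1, h _ (by omega)]
    have h2 : 3 ^ M * (2 * n + e) + b = 2 * (3 ^ M * n + c) := by
      calc 3 ^ M * (2 * n + e) + b = 2 * (3 ^ M * n) + (3 ^ M * e + b) := by ring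
        _ = _ := by rw [hc]; ring
    rw [h2]
    exact hg.dbl _ (by positivity)

/-- odd step -/
theorem E_odd (hg : Inv g) {M b i c e : ℕ} (h : E g M b i) (he : e < 2)
    (hc : 3 ^ M * e + b = 2 * c + 1) : E g (M + 1) (3 * c + 2) (i + 1) := by
  obtain ⟨hb, r, hr, h⟩ := h
  refine ⟨?_, 2 ^ i * e + r, ?_, ?_⟩
  · have : e ≤ 1 := by omega
    have h3 : 3 ^ M * e ≤ 3 ^ M * 1 := Nat.mul_le_mul_left (3 ^ M) this
    rw [pow_succ]
    omega
  · rw [pow_succ]
    have : e ≤ 1 := by omega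
    nlinarith [Nat.mul_le_mul_left (2 ^ i) this]
  · intro n hn
    have h1 : 2 ^ (i + 1) * n + (2 ^ i * e + r) = 2 ^ i * (2 * n + e) + r := by ring
    rw [h1, h _ (by omega)]
    have h2 : 3 ^ M * (2 * n + e) + b = 2 * (3 ^ M * n + c) + 1 := by
      calc 3 ^ M * (2 * n + e) + b = 2 * (3 ^ M * n) + (3 ^ M * e + b) := by ring
        _ = _ := by rw [hc]; ring
    rw [h2, hg.odd]
    have h3 : 3 * (3 ^ M * n + c) + 2 = 3 ^ (M + 1) * n + (3 * c + 2) := by ring
    rw [h3]

theorem three_pow_odd (M : ℕ) : 3 ^ M % 2 = 1 := by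
  induction M with
  | zero => rfl
  | succ n ih => rw [pow_succ]; omega

/-- if `2c mod 3^M` is reached at time i then `c` is reached at time i+1 -/
theorem E_back (hg : Inv g) {M c i : ℕ} (hc : c < 3 ^ M)
    (h : ∀ b, b < 3 ^ M → (b = 2 * c ∨ b + 3 ^ M = 2 * c) → E g M b i) : E g M c (i + 1) := by
  rcases lt_or_ge (2 * c) (3 ^ M) with h1 | h1
  · exact E_half hg (h (2 * c) h1 (Or.inl rfl)) (e := 0) (by norm_num) (by ring)
  · refine E_half hg (h (2 * c - 3 ^ M) (by omega) (Or.inr (by omega))) (e := 1) (by norm_num) ?_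
    omega

/-- every residue prime to 3 is reached after at least `4 M` steps -/
theorem E_all (hg : Inv g) (M : ℕ) (hM : 0 < M) : ∀ b i, b < 3 ^ M → b % 3 ≠ 0 → 4 * M ≤ i → E g M b i := by
  induction M with
  | zero => omega
  | succ M ih =>
    rcases Nat.eq_zero_or_pos M with h0 | h0
    · subst h0
      -- M = 1
      have h2 : ∀ i, 1 ≤ i → E g 1 2 i := by
        intro i hi
        obtain ⟨j, rfl⟩ : ∃ j, i = j + 1 := ⟨i - 1, by omega⟩
        exact E_odd hg (E_zero hg j) (e := 1) (c := 0) (by norm_num) (by norm_num)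
      have h1 : ∀ i, 2 ≤ i → E g 1 1 i := by
        intro i hi
        obtain ⟨j, rfl⟩ : ∃ j, i = j + 1 := ⟨i - 1, by omega⟩
        exact E_half hg (h2 j (by omega)) (e := 0) (c := 1) (by norm_num) (by norm_num)
      intro b i hb hb3 hi
      have hb' : b < 3 := by simpa using hb
      have : b = 1 ∨ b = 2 := by omega
      rcases this with rfl | rfl
      · exact h1 i (by omega)
      · exact h2 i (by omega)
    · -- M ≥ 1
      have hP : 3 ^ (M + 1) = 3 * 3 ^ M := by rw [pow_succ]; ring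
      obtain ⟨M', rfl⟩ : ∃ M', M = M' + 1 := ⟨M - 1, by omega⟩
      have hQ : 3 ^ (M' + 1) = 3 * 3 ^ M' := by rw [pow_succ]; ring
      have hodd := three_pow_odd (M' + 1)
      -- residues 2, 8 mod 9
      have hA : ∀ b i, b < 3 ^ (M' + 1 + 1) → (b % 9 = 2 ∨ b % 9 = 8) → 4 * (M' + 1) ≤ i →
          E g (M' + 1 + 1) b (i + 1) := by
        intro b i hb hb9 hi
        -- b = 3 c + 2, need 2c+1 = 3^M e + b'
        obtain ⟨c, rfl⟩ : ∃ c, b = 3 * c + 2 := ⟨b / 3, by omega⟩
        have hc3 : (2 * c + 1) % 3 ≠ 0 := by omega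
        rcases lt_or_ge (2 * c + 1) (3 ^ (M' + 1)) with h1 | h1
        · exact E_odd hg (ih h0 (2 * c + 1) i h1 hc3 hi) (e := 0) (by norm_num) (by ring)
        · refine E_odd hg (ih h0 (2 * c + 1 - 3 ^ (M' + 1)) i (by omega) (by omega) hi) (e := 1)
            (by norm_num) (by omega)
      have hB : ∀ (S : ℕ → Prop) (t : ℕ),
          (∀ b i, b < 3 ^ (M' + 1 + 1) → S (b % 9) → t ≤ i → E g (M' + 1 + 1) b i) →
          ∀ b i, b < 3 ^ (M' + 1 + 1) → S ((2 * b) % 9) → t + 1 ≤ i → E g (M' + 1 + 1) b i := by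
        intro S t h b i hb hS hi
        obtain ⟨j, rfl⟩ : ∃ j, i = j + 1 := ⟨i - 1, by omega⟩
        apply E_back hg hb
        intro b' hb' h'
        apply h b' j hb' _ (by omega)
        have : b' % 9 = (2 * b) % 9 := by
          rcases h' with h' | h' <;> omega
        rw [this]; exact hS
      have h0' : ∀ b i, b < 3 ^ (M' + 1 + 1) → (fun s => s = 2 ∨ s = 8) (b % 9) → 4 * (M' + 1) + 1 ≤ i →
          E g (M' + 1 + 1) b i := by
        intro b i hb hS hi
        obtain ⟨j, rfl⟩ : ∃ j, i = j + 1 := ⟨i - 1, by omega⟩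
        exact hA b j hb hS (by omega)
      have h1' := hB (fun s => s = 2 ∨ s = 8) _ h0'
      have h2' := hB (fun s => (2 * s) % 9 = 2 ∨ (2 * s) % 9 = 8) (4 * (M' + 1) + 1 + 1) (by
        intro b i hb hS hi
        apply h1' b i hb _ hi
        omega)
      have h3' := hB (fun s => (4 * s) % 9 = 2 ∨ (4 * s) % 9 = 8) (4 * (M' + 1) + 1 + 1 + 1) (by
        intro b i hb hS hi
        apply h2' b i hb _ hi
        omega)
      intro b i hb hb3 hi
      have : b % 9 = 1 ∨ b % 9 = 2 ∨ b % 9 = 4 ∨ b % 9 = 5 ∨ b % 9 = 7 ∨ b % 9 = 8 := by omega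
      rcases this with h | h | h | h | h | h
      · exact h1' b i hb (by omega) (by omega)
      · exact h0' b i hb (by omega) (by omega)
      · exact h1' b i hb (by omega) (by omega)
      · exact h2' b i hb (by omega) (by omega)
      · exact h3' b i hb (by omega) (by omega)
      · exact h0' b i hb (by omega) (by omega)

/-- forward: every class modulo `2 ^ w` is equivalent to a class modulo a power of 3 -/
theorem fwd (hg : Inv g) (w : ℕ) : ∀ r, r < 2 ^ w → ∃ m b, b < 3 ^ m ∧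
    ∀ n, 0 < n → (g (2 ^ w * n + r) ↔ g (3 ^ m * n + b)) := by
  induction w with
  | zero =>
    intro r hr
    have : r = 0 := by simpa using hr
    subst this
    exact ⟨0, 0, by norm_num, fun n _ => by simp⟩
  | succ w ih =>
    intro r hr
    -- r = 2^w * e + r', e < 2
    obtain ⟨m, b, hb, h⟩ := ih (r % 2 ^ w) (Nat.mod_lt _ (by positivity))
    set e := r / 2 ^ w with he
    have he2 : e < 2 := by
      rw [he]
      apply (Nat.div_lt_iff_lt_mul (by positivity)).2
      rw [pow_succ] at hr; linarith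
    have hr' : r = 2 ^ w * e + r % 2 ^ w := (Nat.div_add_mod r (2 ^ w)).symm
    have key : ∀ n, 0 < n → (g (2 ^ (w + 1) * n + r) ↔ g (2 * (3 ^ m * n) + (3 ^ m * e + b))) := by
      intro n hn
      have h1 : 2 ^ (w + 1) * n + r = 2 ^ w * (2 * n + e) + r % 2 ^ w := by
        calc 2 ^ (w + 1) * n + r = 2 ^ (w + 1) * n + (2 ^ w * e + r % 2 ^ w) := by
              exact congrArg (fun t => 2 ^ (w + 1) * n + t) hr'
          _ = _ := by ring
      rw [h1, h _ (by positivity)]
      have : 3 ^ m * (2 * n + e) + b = 2 * (3 ^ m * n) + (3 ^ m * e + b) := by ring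
      rw [this]
    have hlt : 3 ^ m * e + b < 2 * 3 ^ m := by
      have he1 : e ≤ 1 := by
        clear_value e
        omega
      nlinarith [Nat.mul_le_mul_left (3 ^ m) he1]
    rcases Nat.even_or_odd' (3 ^ m * e + b) with ⟨c, hc | hc⟩
    · refine ⟨m, c, by omega, ?_⟩
      intro n hn
      rw [key n hn, hc, show 2 * (3 ^ m * n) + 2 * c = 2 * (3 ^ m * n + c) by ring]
      exact hg.dbl _ (by positivity)
    · refine ⟨m + 1, 3 * c + 2, by rw [pow_succ]; omega, ?_⟩
      intro n hn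
      rw [key n hn, hc, show 2 * (3 ^ m * n) + (2 * c + 1) = 2 * (3 ^ m * n + c) + 1 by ring, hg.odd,
        show 3 * (3 ^ m * n + c) + 2 = 3 ^ (m + 1) * n + (3 * c + 2) by ring]

end Pool.Agent.W_e21d3a_h20
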