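import Mathlib
import Pool.Agent.W_e21d3a_h20.Reach
import Pool.Agent.W_e21d3a_h20.Approx

set_option autoImplicit false

namespace Pool.Agent.W_e21d3a_h20

variable {g : ℕ → Prop}

/-- blocks of length `Q` attached to equivalent prefixes agree off the multiples of 3 -/
def PB (g : ℕ → Prop) {F : Type} (c : ℕ → F) (Q : ℕ) : Prop :=
  ∀ x y, 0 < x → 0 < y → c x = c y → ∀ z, z < Q → z % 3 ≠ 0 → (g (Q * x + z) ↔ g (Q * y + z))

/-- eventual period on the integers prime to 3 -/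
def Per (g : ℕ → Prop) (p : ℕ) : Prop :=
  ∃ V, ∀ v, V ≤ v → v % 3 ≠ 0 → (g (v + p) ↔ g v)

theorem exists_bound {F : Type} [Finite F] (c : ℕ → F) :
    ∃ B, ∀ y, B < y → ∃ x y', 0 < x ∧ x < y' ∧ y' ≤ B ∧ c x = c y ∧ c y' = c y := by
  classical
  have h : ∀ f : F, ∃ B, ∀ y, B < y → c y = f → ∃ x y', 0 < x ∧ x < y' ∧ y' ≤ B ∧ c x = f ∧ c y' = f := by
    intro f
    by_cases h2 : ∃ x y', 0 < x ∧ x < y' ∧ c x = f ∧ c y' = f
    · obtain ⟨x, y', hx, hxy, h1, h2⟩ := h2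
      exact ⟨y', fun y _ _ => ⟨x, y', hx, hxy, le_rfl, h1, h2⟩⟩
    · by_cases h1 : ∃ x, 0 < x ∧ c x = f
      · obtain ⟨x, hx, hf⟩ := h1
        refine ⟨x, fun y hy hyf => ?_⟩
        exact absurd ⟨x, y, hx, hy, hf, hyf⟩ h2
      · refine ⟨0, fun y hy hyf => ?_⟩
        exact absurd ⟨y, hy, hyf⟩ h1
  choose Bf hBf using h
  have : Fintype F := Fintype.ofFinite F
  refine ⟨Finset.univ.sup Bf, fun y hy => ?_⟩
  have hle : Bf (c y) ≤ Finset.univ.sup Bf := Finset.le_sup (Finset.mem_univ _)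
  obtain ⟨x, y', h1, h2, h3, h4, h5⟩ := hBf (c y) y (lt_of_le_of_lt hle hy) rfl
  exact ⟨x, y', h1, h2, h3.trans hle, h4, h5⟩

/-- double blocks -/
theorem PB2 {F : Type} {c : ℕ → F} {Q : ℕ} (hQ : PB g c Q) (h3 : Q % 3 = 0) :
    ∀ x y, 0 < x → 0 < y → c x = c y → c (x + 1) = c (y + 1) →
      ∀ z, z < 2 * Q → z % 3 ≠ 0 → (g (Q * x + z) ↔ g (Q * y + z)) := by
  intro x y hx hy hc hc1 z hz hz3
  rcases lt_or_ge z Q with h | h
  · exact hQ x y hx hy hc z h hz3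
  · have := hQ (x + 1) (y + 1) (by omega) (by omega) hc1 (z - Q) (by omega) (by omega)
    have e1 : Q * (x + 1) + (z - Q) = Q * x + z := by
      rw [mul_add, mul_one]; omega
    have e2 : Q * (y + 1) + (z - Q) = Q * y + z := by
      rw [mul_add, mul_one]; omega
    rwa [e1, e2] at this

theorem exists_period {F : Type} [Finite F] {c : ℕ → F}
    (h : ∀ u w : ℕ, ∃ κ, 0 < κ ∧ PB g c (3 ^ u * (3 * κ)) ∧ PB g c (2 ^ w * (3 * κ))) :
    ∃ p, 0 < p ∧ p % 3 = 0 ∧ Per g p := by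
  classical
  obtain ⟨B, hB⟩ := exists_bound (fun x => (c x, c (x + 1)))
  set D := Nat.factorial B with hD
  have hDpos : 0 < D := Nat.factorial_pos B
  obtain ⟨u, w, a, b, hab, hba, hC⟩ := approx (1 + D + B)
  obtain ⟨κ, hκ, hP1, hP2⟩ := h u w
  have hQ : PB g c (a * (3 * κ)) ∧ PB g c (b * (3 * κ)) := by
    rcases hab with ⟨rfl, rfl⟩ | ⟨rfl, rfl⟩
    · exact ⟨hP1, hP2⟩
    · exact ⟨hP2, hP1⟩
  obtain ⟨hQa, hQb⟩ := hQ
  set Q1 := a * (3 * κ) with hQ1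
  set Q2 := b * (3 * κ) with hQ2
  set ρ := (a - b) * (3 * κ) with hρ
  have hρpos : 0 < ρ := Nat.mul_pos (by omega) (by omega)
  have h12 : Q1 = Q2 + ρ := by
    rw [hQ1, hQ2, hρ, ← add_mul]; congr 1; omega
  have h31 : Q1 % 3 = 0 := by
    rw [hQ1, show a * (3 * κ) = 3 * (a * κ) by ring]; exact Nat.mul_mod_right 3 _
  have h32 : Q2 % 3 = 0 := by
    rw [hQ2, show b * (3 * κ) = 3 * (b * κ) by ring]; exact Nat.mul_mod_right 3 _
  have h3ρ : ρ % 3 = 0 := by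
    rw [hρ, show (a - b) * (3 * κ) = 3 * ((a - b) * κ) by ring]; exact Nat.mul_mod_right 3 _
  have hCρ : (1 + D + B) * ρ ≤ Q2 := by
    calc (1 + D + B) * ρ = (1 + D + B) * (a - b) * (3 * κ) := by rw [hρ]; ring
      _ ≤ b * (3 * κ) := Nat.mul_le_mul_right _ hC
  have hQ1pos : 0 < Q1 := by rw [h12]; omega
  refine ⟨D * ρ, Nat.mul_pos hDpos hρpos, ?_, (B + 1) * Q1, ?_⟩
  · rw [Nat.mul_mod, h3ρ]; simp
  intro v hv hv3
  -- block of v
  set y := v / Q1 with hy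
  set z := v % Q1 with hz
  have hvz : v = Q1 * y + z := (Nat.div_add_mod v Q1).symm
  have hyB : B < y := by
    have : B + 1 ≤ y := (Nat.le_div_iff_mul_le hQ1pos).2 hv
    omega
  have hzQ : z < Q1 := Nat.mod_lt _ hQ1pos
  obtain ⟨x, y', hx, hxy, hy'B, hcx, hcy⟩ := hB y hyB
  simp only [Prod.mk.injEq] at hcx hcy
  have hQy : (Q1 * y) % 3 = 0 := by rw [Nat.mul_mod, h31]; simp
  have hz3 : z % 3 ≠ 0 := by
    intro h0
    apply hv3
    rw [hvz, Nat.add_mod, hQy, h0]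
  -- one step
  set p := (y' - x) * ρ with hp
  have hp3 : p % 3 = 0 := by rw [hp, Nat.mul_mod, h3ρ]; simp
  have hstep : ∀ s, s + p < 2 * Q2 - x * ρ → s % 3 ≠ 0 →
      (g (Q1 * y' + (s + p)) ↔ g (Q1 * y' + s)) := by
    intro s hs hs3
    have hsp3 : (s + p) % 3 ≠ 0 := by omega
    have hxρ : x * ρ ≤ B * ρ := Nat.mul_le_mul_right _ (by omega)
    have hlt1 : s + p < 2 * Q1 := by omega
    have e1 := PB2 hQa h31 y' x (by omega) hx (hcy.1.trans hcx.1.symm) (hcy.2.trans hcx.2.symm)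
      (s + p) hlt1 hsp3
    have e2 : Q1 * x + (s + p) = Q2 * x + (x * ρ + (s + p)) := by
      rw [h12]; ring
    have hxρ3 : (x * ρ) % 3 = 0 := by rw [Nat.mul_mod, h3ρ]; simp
    have e3 := PB2 hQb h32 x y' hx (by omega) (hcx.1.trans hcy.1.symm) (hcx.2.trans hcy.2.symm)
      (x * ρ + (s + p)) (by omega) (by omega)
    have e4 : Q2 * y' + (x * ρ + (s + p)) = Q1 * y' + s := by
      rw [h12, hp]
      obtain ⟨d, rfl⟩ : ∃ d, y' = x + d := ⟨y' - x, by omega⟩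
      have : x + d - x = d := by omega
      rw [this]; ring
    rw [e1, e2, e3, e4]
  have hmult : ∀ t s, s + t * p < 2 * Q2 - x * ρ → s % 3 ≠ 0 →
      (g (Q1 * y' + (s + t * p)) ↔ g (Q1 * y' + s)) := by
    intro t
    induction t with
    | zero => intro s _ _; simp
    | succ t ih =>
      intro s hs hs3
      have e : s + (t + 1) * p = (s + p) + t * p := by ring
      rw [e, ih (s + p) (by rw [← e]; exact hs) (by omega)]
      exact hstep s (by rw [e] at hs; have : 0 ≤ t * p := Nat.zero_le _; omega) hs3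
  -- D ρ is a multiple of p
  have hdvd : (y' - x) ∣ D := Nat.dvd_factorial (by omega) (by omega)
  obtain ⟨t, ht⟩ := hdvd
  have hDρ : D * ρ = t * p := by rw [ht, hp]; ring
  have hrange : z + D * ρ < 2 * Q2 - x * ρ := by
    have hxρ : x * ρ ≤ B * ρ := Nat.mul_le_mul_right _ (by omega)
    have e : (1 + D + B) * ρ = ρ + D * ρ + B * ρ := by ring
    rw [e] at hCρ
    omega
  have hrange1 : z + D * ρ < 2 * Q1 := by omega
  have hDρ3 : (D * ρ) % 3 = 0 := by rw [Nat.mul_mod, h3ρ]; simp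
  have f1 := PB2 hQa h31 y y' (by omega) (by omega) hcy.1.symm hcy.2.symm (z + D * ρ) hrange1 (by omega)
  have f2 := PB2 hQa h31 y y' (by omega) (by omega) hcy.1.symm hcy.2.symm z (by omega) hz3
  have f3 := hmult t z (by rw [← hDρ]; exact hrange) hz3
  rw [← hDρ] at f3
  have e5 : v + D * ρ = Q1 * y + (z + D * ρ) := by
    calc v + D * ρ = (Q1 * y + z) + D * ρ := by rw [← hvz]
      _ = _ := by ring
  rw [e5, f1, f3, ← f2, ← hvz]

end Pool.Agent.W_e21d3a_h20
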