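import Mathlib
import Pool.Agent.W_e21d3a_h20.Core

set_option autoImplicit false

namespace Pool.Agent.W_e21d3a_h20

variable {g : ℕ → Prop}

theorem per_mul {p : ℕ} (h3 : p % 3 = 0) {V : ℕ} (h : ∀ v, V ≤ v → v % 3 ≠ 0 → (g (v + p) ↔ g v)) :
    ∀ t v, V ≤ v → v % 3 ≠ 0 → (g (v + t * p) ↔ g v) := by
  intro t
  induction t with
  | zero => intro v _ _; simp
  | succ t ih =>
    intro v hv hv3
    have e : v + (t + 1) * p = (v + p) + t * p := by ring
    rw [e, ih (v + p) (by omega) (by omega)]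
    exact h v hv hv3

/-- an eventually periodic invariant predicate is constant on the positive integers -/
theorem const_of_period (hg : Inv g) (h : ∃ p, 0 < p ∧ p % 3 = 0 ∧ Per g p) :
    (∀ n, 0 < n → g n) ∨ (∀ n, 0 < n → ¬ g n) := by
  classical
  -- minimal period
  obtain ⟨p, ⟨hp0, hp3, hper⟩, hmin⟩ : ∃ p, (0 < p ∧ p % 3 = 0 ∧ Per g p) ∧
      ∀ p', p' < p → ¬ (0 < p' ∧ p' % 3 = 0 ∧ Per g p') :=
    ⟨Nat.find h, Nat.find_spec h, fun p' hp' => Nat.find_min h hp'⟩
  obtain ⟨V0, hV0⟩ := hper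
  -- enlarge V
  obtain ⟨V, hV1, hV⟩ : ∃ V, 1 ≤ V ∧ ∀ v, V ≤ v → v % 3 ≠ 0 → (g (v + p) ↔ g v) :=
    ⟨V0 + 1, by omega, fun v hv => hV0 v (by omega)⟩
  -- p is odd
  have hpodd : p % 2 = 1 := by
    by_contra h2
    obtain ⟨q, rfl⟩ : ∃ q, p = 2 * q := ⟨p / 2, by omega⟩
    refine hmin q (by omega) ⟨by omega, by omega, V, fun v hv hv3 => ?_⟩
    rw [← hg.dbl v (by omega), ← hg.dbl (v + q) (by omega), mul_add]
    exact hV _ (by omega) (by omega)
  -- p is not divisible by 9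
  have hp9 : p % 9 ≠ 0 := by
    intro h9
    obtain ⟨s, rfl⟩ : ∃ s, p = 9 * s := ⟨p / 9, by omega⟩
    refine hmin (2 * (3 * s)) (by omega) ⟨by omega, by omega, 2 * V + 1, fun v hv hv3 => ?_⟩
    -- odd y : period 2 * 3 s
    have hodd : ∀ y, 2 * V + 1 ≤ y → y % 2 = 1 → (g (y + 2 * (3 * s)) ↔ g y) := by
      intro y hy hy2
      obtain ⟨m, rfl⟩ : ∃ m, y = 2 * m + 1 := ⟨y / 2, by omega⟩
      rw [show 2 * m + 1 + 2 * (3 * s) = 2 * (m + 3 * s) + 1 by ring, hg.odd, hg.odd,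
        show 3 * (m + 3 * s) + 2 = 3 * m + 2 + 9 * s by ring]
      exact hV _ (by omega) (by omega)
    rcases Nat.mod_two_eq_zero_or_one v with h2 | h2
    · have e1 := hV v (by omega) hv3
      have e2 := hV (v + 2 * (3 * s)) (by omega) (by omega)
      have e3 := hodd (v + 9 * s) (by omega) (by omega)
      rw [← e1, ← e2, ← e3, show v + 2 * (3 * s) + 9 * s = v + 9 * s + 2 * (3 * s) by ring]
    · exact hodd v hv h2
  obtain ⟨q, rfl⟩ : ∃ q, p = 3 * q := ⟨p / 3, by omega⟩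
  have hq2 : q % 2 = 1 := by omega
  have hq3 : q % 3 ≠ 0 := by omega
  have hq0 : 0 < q := by omega
  -- odd numbers have period 2 q
  have hodd : ∀ y, 2 * V + 1 ≤ y → y % 2 = 1 → (g (y + 2 * q) ↔ g y) := by
    intro y hy hy2
    obtain ⟨m, rfl⟩ : ∃ m, y = 2 * m + 1 := ⟨y / 2, by omega⟩
    rw [show 2 * m + 1 + 2 * q = 2 * (m + q) + 1 by ring, hg.odd, hg.odd,
      show 3 * (m + q) + 2 = 3 * m + 2 + 3 * q by ring]
    exact hV _ (by omega) (by omega)
  have hoddm : ∀ t y, 2 * V + 1 ≤ y → y % 2 = 1 → (g (y + 2 * q * t) ↔ g y) := by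
    intro t
    induction t with
    | zero => intro y _ _; simp
    | succ t ih =>
      intro y hy hy2
      rw [show y + 2 * q * (t + 1) = (y + 2 * q) + 2 * q * t by ring,
        ih (y + 2 * q) (by omega) (by omega)]
      exact hodd y hy hy2
  set W := 2 * V + 1 with hW
  -- the function on residues mod q
  let G : ZMod q → Prop := fun x => ∃ v, W ≤ v ∧ v % 2 = 1 ∧ (v : ZMod q) = x ∧ g v
  have hodd_eq : ∀ v v', W ≤ v → W ≤ v' → v % 2 = 1 → v' % 2 = 1 → (v : ZMod q) = (v' : ZMod q) →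
      (g v ↔ g v') := by
    have key : ∀ v v', W ≤ v → v ≤ v' → v % 2 = 1 → v' % 2 = 1 → (v : ZMod q) = (v' : ZMod q) →
      (g v ↔ g v') := by
      intro v v' hv hvv h1 h2 hc
      have hmod : v ≡ v' [MOD q] := (ZMod.natCast_eq_natCast_iff v v' q).1 hc
      have hd : q ∣ v' - v := (Nat.modEq_iff_dvd' hvv).1 hmod
      have hd2 : 2 ∣ v' - v := by omega
      have hcop : Nat.Coprime 2 q := by
        rw [Nat.coprime_comm]
        exact (Nat.coprime_two_right.2 (Nat.odd_iff.2 hq2))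
      obtain ⟨t, ht⟩ := hcop.mul_dvd_of_dvd_of_dvd hd2 hd
      have : v' = v + 2 * q * t := by omega
      rw [this]
      exact (hoddm t v hv h1).symm
    intro v v' hv hv' h1 h2 hc
    rcases le_total v v' with h | h
    · exact key v v' hv h h1 h2 hc
    · exact (key v' v hv' h h2 h1 hc.symm).symm
  have hGodd : ∀ v, W ≤ v → v % 2 = 1 → (g v ↔ G (v : ZMod q)) := by
    intro v hv h1
    constructor
    · intro h; exact ⟨v, hv, h1, rfl, h⟩
    · rintro ⟨v', hv', h1', he, hgv'⟩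
      exact (hodd_eq v' v hv' hv h1' h1 he).1 hgv'
  have hGS : ∀ v, W ≤ v → v % 3 ≠ 0 → (g v ↔ G (v : ZMod q)) := by
    intro v hv h3
    rcases Nat.mod_two_eq_zero_or_one v with h2 | h2
    · rw [← hV v (by omega) h3, hGodd (v + 3 * q) (by omega) (by omega)]
      have : ((v + 3 * q : ℕ) : ZMod q) = (v : ZMod q) := by push_cast; simp
      rw [this]
    · exact hGodd v hv h2
  -- representatives
  have hrep : ∀ x : ZMod q, ∃ v, W ≤ v ∧ v % 6 = 1 ∧ (v : ZMod q) = x := by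
    intro x
    have : NeZero q := ⟨by omega⟩
    have hcop : Nat.Coprime q 6 := by
      rw [show (6:ℕ) = 2 * 3 by norm_num]
      apply Nat.Coprime.mul_right
      · exact (Nat.coprime_two_right.2 (Nat.odd_iff.2 hq2))
      · rw [Nat.coprime_comm, Nat.Prime.coprime_iff_not_dvd (by norm_num)]
        omega
    obtain ⟨k, hk1, hk2⟩ := Nat.chineseRemainder hcop x.val 1
    refine ⟨k + 6 * q * W, ?_, ?_, ?_⟩
    · have : 1 ≤ 6 * q := by omega
      nlinarith [Nat.mul_le_mul_right W this]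
    · have : k % 6 = 1 := hk2
      have h6 : 6 * q * W = 6 * (q * W) := by ring
      rw [h6]; omega
    · have h1 : ((k : ℕ) : ZMod q) = (x.val : ZMod q) := (ZMod.natCast_eq_natCast_iff k x.val q).2 hk1
      push_cast
      rw [h1]
      simp
  have hG2 : ∀ x, G (2 * x) ↔ G x := by
    intro x
    obtain ⟨v, hv, h6, rfl⟩ := hrep x
    rw [← hGS v hv (by omega), ← hg.dbl v (by omega), hGS (2 * v) (by omega) (by omega)]
    push_cast; rfl
  have hG3 : ∀ x, G (3 * x + 1) ↔ G x := by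
    intro x
    obtain ⟨v, hv, h6, rfl⟩ := hrep x
    obtain ⟨m, rfl⟩ : ∃ m, v = 2 * m + 1 := ⟨v / 2, by omega⟩
    have : (3 * ((2 * m + 1 : ℕ) : ZMod q) + 1) = 2 * ((3 * m + 2 : ℕ) : ZMod q) := by
      push_cast; ring
    rw [this, hG2, ← hGS (2 * m + 1) hv (by omega), hg.odd, hGS (3 * m + 2) (by omega) (by omega)]
  have hGs : ∀ y, G (y + 1) ↔ G y := by
    intro y
    have h6u : IsUnit (6 : ZMod q) := by
      have hcop : Nat.Coprime 6 q := by
        rw [show (6:ℕ) = 2 * 3 by norm_num]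
        apply Nat.Coprime.mul_left
        · rw [Nat.coprime_comm]; exact (Nat.coprime_two_right.2 (Nat.odd_iff.2 hq2))
        · rw [Nat.Prime.coprime_iff_not_dvd (by norm_num)]
          omega
      have := (ZMod.isUnit_iff_coprime 6 q).2 hcop
      simpa using this
    obtain ⟨u, hu⟩ := h6u
    -- x with 6 x + 1 = y
    set x : ZMod q := (u⁻¹ : (ZMod q)ˣ) * (y - 1) with hx
    have hx6 : 6 * x + 1 = y := by
      rw [hx, ← hu, ← mul_assoc, Units.mul_inv, one_mul]; ring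
    have e1 : G y ↔ G x := by
      rw [← hx6, show (6:ZMod q) * x + 1 = 3 * (2 * x) + 1 by ring, hG3, hG2]
    have e2 : G (y + 1) ↔ G x := by
      rw [← hx6, show (6:ZMod q) * x + 1 + 1 = 2 * (3 * x + 1) by ring, hG2, hG3]
    rw [e1, e2]
  have hGnat : ∀ n : ℕ, G (n : ZMod q) ↔ G 0 := by
    intro n
    induction n with
    | zero => simp
    | succ n ih => push_cast; rw [hGs, ih]
  -- all large numbers prime to 3
  have hlarge : ∀ v, W ≤ v → v % 3 ≠ 0 → (g v ↔ G 0) := fun v hv h3 => by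
    rw [hGS v hv h3, hGnat]
  -- doubling
  have hdbl : ∀ e n, 0 < n → (g (2 ^ e * n) ↔ g n) := by
    intro e
    induction e with
    | zero => intro n _; simp
    | succ e ih =>
      intro n hn
      rw [show 2 ^ (e + 1) * n = 2 * (2 ^ e * n) by ring, hg.dbl _ (by positivity), ih n hn]
  have h3 : ∀ n, 0 < n → n % 3 ≠ 0 → (g n ↔ G 0) := by
    intro n hn hn3
    rw [← hdbl W n hn]
    apply hlarge
    · have : W < 2 ^ W := Nat.lt_two_pow_self
      nlinarith [Nat.mul_le_mul_left (2 ^ W) hn]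
    · have h2c : Nat.Coprime 3 (2 ^ W) := Nat.Coprime.pow_right _ (by norm_num)
      intro h0
      have : 3 ∣ 2 ^ W * n := Nat.dvd_of_mod_eq_zero h0
      have := h2c.dvd_of_dvd_mul_left this
      omega
  have hall : ∀ n, 0 < n → (g n ↔ G 0) := by
    intro n
    induction n using Nat.strong_induction_on with
    | _ n ih =>
      intro hn
      rcases Nat.mod_two_eq_zero_or_one n with h2 | h2
      · obtain ⟨m, rfl⟩ : ∃ m, n = 2 * m := ⟨n / 2, by omega⟩
        rw [hg.dbl m (by omega)]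
        exact ih m (by omega) (by omega)
      · obtain ⟨m, rfl⟩ : ∃ m, n = 2 * m + 1 := ⟨n / 2, by omega⟩
        rw [hg.odd]
        exact h3 _ (by omega) (by omega)
  by_cases hG0 : G 0
  · exact Or.inl fun n hn => (hall n hn).2 hG0
  · exact Or.inr fun n hn h => hG0 ((hall n hn).1 h)

end Pool.Agent.W_e21d3a_h20
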