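import Mathlib
import Pool.Agent.W_e21d3a_h20.Const

set_option autoImplicit false

namespace Pool.Agent.W_e21d3a_h20

variable {g : ℕ → Prop}

/-- finite index of the prefix congruence in base `k` -/
structure Aut (g : ℕ → Prop) (k : ℕ) (F : Type) (c : ℕ → F) : Prop where
  acc : ∀ x y, 0 < x → 0 < y → c x = c y → (g x ↔ g y)
  step : ∀ x y, 0 < x → 0 < y → c x = c y → ∀ d, d < k → c (k * x + d) = c (k * y + d)

theorem Aut.steps {k : ℕ} {F : Type} {c : ℕ → F} (hk : 0 < k) (h : Aut g k F c) (j : ℕ) :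
    ∀ x y, 0 < x → 0 < y → c x = c y → ∀ z, z < k ^ j → c (k ^ j * x + z) = c (k ^ j * y + z) := by
  induction j with
  | zero =>
    intro x y hx hy hc z hz
    have : z = 0 := by simpa using hz
    subst this
    simpa using hc
  | succ j ih =>
    intro x y hx hy hc z hz
    have hz1 : z / k < k ^ j := by
      apply (Nat.div_lt_iff_lt_mul hk).2
      rw [← pow_succ]; exact hz
    have e : ∀ x, k ^ (j + 1) * x + z = k * (k ^ j * x + z / k) + z % k := by
      intro x
      calc k ^ (j + 1) * x + z = k ^ (j + 1) * x + (k * (z / k) + z % k) := by rw [Nat.div_add_mod]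
        _ = _ := by ring
    rw [e x, e y]
    exact h.step _ _ (by positivity) (by positivity) (ih x y hx hy hc _ hz1) _ (Nat.mod_lt _ hk)

theorem Aut.blocks {k : ℕ} {F : Type} {c : ℕ → F} (hk : 0 < k) (h : Aut g k F c) (j : ℕ) :
    ∀ x y, 0 < x → 0 < y → c x = c y → ∀ z, z < k ^ j → (g (k ^ j * x + z) ↔ g (k ^ j * y + z)) :=
  fun x y hx hy hc z hz => h.acc _ _ (by positivity) (by positivity) (h.steps hk j x y hx hy hc z hz)

/-- even bases -/
theorem PB_even (hg : Inv g) {l : ℕ} (hl : 0 < l) {F : Type} {c : ℕ → F} (h : Aut g (2 * l) F c)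
    {M s j : ℕ} (hM : 0 < M) (hj : s + 4 * M ≤ j) : PB g c (3 ^ M * (2 ^ s * l ^ j)) := by
  intro x y hx hy hc z hz hz3
  set z0 := z % 3 ^ M with hz0
  set z1 := z / 3 ^ M with hz1
  have hzz : z = 3 ^ M * z1 + z0 := (Nat.div_add_mod z _).symm
  have h3M : 0 < 3 ^ M := by positivity
  have hz0lt : z0 < 3 ^ M := Nat.mod_lt _ h3M
  have hz1lt : z1 < 2 ^ s * l ^ j := by
    apply (Nat.div_lt_iff_lt_mul h3M).2
    rw [mul_comm]; exact hz
  have hz03 : z0 % 3 ≠ 0 := by
    intro h0
    apply hz3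
    rw [hzz, Nat.add_mod, h0]
    obtain ⟨M', rfl⟩ : ∃ M', M = M' + 1 := ⟨M - 1, by omega⟩
    rw [show 3 ^ (M' + 1) * z1 = 3 * (3 ^ M' * z1) by ring]
    simp
  obtain ⟨i, rfl⟩ : ∃ i, j = i + s := ⟨j - s, by omega⟩
  obtain ⟨_, r, hr, hE⟩ := E_all hg M hM z0 i hz0lt hz03 (by omega)
  have key : ∀ x, 0 < x → (g (3 ^ M * (2 ^ s * l ^ (i + s)) * x + z) ↔
      g ((2 * l) ^ (i + s) * x + (2 ^ i * z1 + r))) := by
    intro x hx
    have e1 : 3 ^ M * (2 ^ s * l ^ (i + s)) * x + z = 3 ^ M * (2 ^ s * l ^ (i + s) * x + z1) + z0 := by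
      calc 3 ^ M * (2 ^ s * l ^ (i + s)) * x + z
          = 3 ^ M * (2 ^ s * l ^ (i + s)) * x + (3 ^ M * z1 + z0) := by rw [← hzz]
        _ = _ := by ring
    have e2 : (2 * l) ^ (i + s) * x + (2 ^ i * z1 + r) = 2 ^ i * (2 ^ s * l ^ (i + s) * x + z1) + r := by
      rw [mul_pow, pow_add 2 i s]; ring
    rw [e1, e2]
    exact (hE _ (by positivity)).symm
  rw [key x hx, key y hy]
  apply h.blocks (by omega) (i + s) x y hx hy hc
  have e3 : (2 * l) ^ (i + s) = 2 ^ i * (2 ^ s * l ^ (i + s)) := by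
    rw [mul_pow, pow_add 2 i s]; ring
  rw [e3]
  calc 2 ^ i * z1 + r < 2 ^ i * z1 + 2 ^ i := by omega
    _ = 2 ^ i * (z1 + 1) := by ring
    _ ≤ _ := Nat.mul_le_mul_left _ hz1lt

theorem const_even (hg : Inv g) {l : ℕ} (hl : 0 < l) {F : Type} [Finite F] {c : ℕ → F}
    (h : Aut g (2 * l) F c) : (∀ n, 0 < n → g n) ∨ (∀ n, 0 < n → ¬ g n) := by
  refine const_of_period hg (exists_period (c := c) ?_)
  intro u w
  refine ⟨l ^ (w + 4 * (u + 1)), by positivity, ?_, ?_⟩
  · have := PB_even hg hl h (M := u + 1) (s := 0) (j := w + 4 * (u + 1)) (by omega) (by omega)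
    have e : 3 ^ u * (3 * l ^ (w + 4 * (u + 1))) = 3 ^ (u + 1) * (2 ^ 0 * l ^ (w + 4 * (u + 1))) := by
      ring
    rw [e]; exact this
  · have := PB_even hg hl h (M := 1) (s := w) (j := w + 4 * (u + 1)) (by omega) (by omega)
    have e : 2 ^ w * (3 * l ^ (w + 4 * (u + 1))) = 3 ^ 1 * (2 ^ w * l ^ (w + 4 * (u + 1))) := by
      ring
    rw [e]; exact this

/-- bases which are powers of three -/
theorem const_three (hg : Inv g) {b : ℕ} (hb : 0 < b) {F : Type} [Finite F] {c : ℕ → F}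
    (h : Aut g (3 ^ b) F c) : (∀ n, 0 < n → g n) ∨ (∀ n, 0 < n → ¬ g n) := by
  have hk : 0 < 3 ^ b := by positivity
  set c' : ℕ → (Fin b → Fin (3 ^ b) → F) := fun x t s => c (3 ^ (t : ℕ) * x + s) with hc'
  have hpow : ∀ e x y, 0 < x → 0 < y → c' x = c' y → ∀ z, z < 3 ^ e →
      (g (3 ^ e * x + z) ↔ g (3 ^ e * y + z)) := by
    intro e x y hx hy hc z hz
    set t := e % b with ht
    set j := e / b with hj
    have he : e = b * j + t := (Nat.div_add_mod e b).symm
    have htb : t < b := Nat.mod_lt _ hb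
    set z1 := z / (3 ^ b) ^ j with hz1
    set z0 := z % (3 ^ b) ^ j with hz0
    have hkj : 0 < (3 ^ b) ^ j := by positivity
    have hzz : z = (3 ^ b) ^ j * z1 + z0 := (Nat.div_add_mod z _).symm
    have hz0lt : z0 < (3 ^ b) ^ j := Nat.mod_lt _ hkj
    have h3e : 3 ^ e = (3 ^ b) ^ j * 3 ^ t := by
      rw [he, pow_add, pow_mul]
    have hz1lt : z1 < 3 ^ t := by
      apply (Nat.div_lt_iff_lt_mul hkj).2
      rw [mul_comm, ← h3e]; exact hz
    have hz1b : z1 < 3 ^ b := lt_of_lt_of_le hz1lt (Nat.pow_le_pow_right (by norm_num) htb.le)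
    have hcc : c (3 ^ t * x + z1) = c (3 ^ t * y + z1) := by
      have := congrFun (congrFun hc ⟨t, htb⟩) ⟨z1, hz1b⟩
      simpa [hc'] using this
    have e1 : ∀ x, 3 ^ e * x + z = (3 ^ b) ^ j * (3 ^ t * x + z1) + z0 := by
      intro x
      calc 3 ^ e * x + z = (3 ^ b) ^ j * 3 ^ t * x + ((3 ^ b) ^ j * z1 + z0) := by rw [h3e, ← hzz]
        _ = _ := by ring
    rw [e1 x, e1 y]
    exact h.blocks hk j _ _ (by positivity) (by positivity) hcc z0 hz0lt
  refine const_of_period hg (exists_period (c := c') ?_)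
  intro u w
  refine ⟨1, one_pos, ?_, ?_⟩
  · intro x y hx hy hc z hz _
    have e : 3 ^ u * (3 * 1) = 3 ^ (u + 1) := by ring
    rw [e] at hz ⊢
    exact hpow _ x y hx hy hc z hz
  · intro x y hx hy hc z hz _
    set r := z % 2 ^ w with hr
    set z1 := z / 2 ^ w with hz1
    have h2w : 0 < 2 ^ w := by positivity
    have hzz : z = 2 ^ w * z1 + r := (Nat.div_add_mod z _).symm
    have hz1lt : z1 < 3 := by
      apply (Nat.div_lt_iff_lt_mul h2w).2
      linarith
    obtain ⟨m, b', hb', hfw⟩ := fwd hg w r (Nat.mod_lt _ h2w)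
    have key : ∀ x, 0 < x → (g (2 ^ w * (3 * 1) * x + z) ↔ g (3 ^ (m + 1) * x + (3 ^ m * z1 + b'))) := by
      intro x hx
      have e1 : 2 ^ w * (3 * 1) * x + z = 2 ^ w * (3 * x + z1) + r := by
        calc 2 ^ w * (3 * 1) * x + z = 2 ^ w * (3 * 1) * x + (2 ^ w * z1 + r) := by rw [← hzz]
          _ = _ := by ring
      have e2 : 3 ^ (m + 1) * x + (3 ^ m * z1 + b') = 3 ^ m * (3 * x + z1) + b' := by ring
      rw [e1, e2]
      exact hfw _ (by positivity)
    rw [key x hx, key y hy]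
    apply hpow _ x y hx hy hc
    rw [pow_succ]
    have : 3 ^ m * z1 ≤ 3 ^ m * 2 := Nat.mul_le_mul_left _ (by omega)
    omega

/-! ### automata -/

/-- read natural number digits -/
def extend {k : ℕ} {σ : Type} (M : DFA (Fin k) σ) (q : σ) (d : ℕ) : σ :=
  if h : d < k then M.step q ⟨d, h⟩ else q

theorem foldl_extend {k : ℕ} {σ : Type} (M : DFA (Fin k) σ) (w : List (Fin k)) :
    ∀ q, (w.map Fin.val).foldl (extend M) q = M.evalFrom q w := by
  induction w with
  | nil => intro q; rfl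
  | cons a w ih =>
    intro q
    simp only [List.map_cons, List.foldl_cons]
    rw [ih]
    have : extend M q a.val = M.step q a := by simp [extend]
    rw [this]
    rfl

theorem exists_word {k : ℕ} : ∀ l : List ℕ, (∀ d ∈ l, d < k) → ∃ w : List (Fin k), w.map Fin.val = l := by
  intro l
  induction l with
  | nil => intro _; exact ⟨[], rfl⟩
  | cons d l ih =>
    intro h
    obtain ⟨w, hw⟩ := ih fun d hd => h d (List.mem_cons_of_mem _ hd)
    exact ⟨⟨d, h d List.mem_cons_self⟩ :: w, by simp [hw]⟩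

/-- the set `B` of positive integers is recognised by a finite automaton which reads the base `k`
digits of the input, least significant digit first -/
def RecogLSB (k : ℕ) (B : Set ℕ) : Prop :=
  ∃ (σ : Type) (_ : Fintype σ) (M : DFA (Fin k) σ), ∀ n, 0 < n →
    ∀ w : List (Fin k), w.map Fin.val = Nat.digits k n → (w ∈ M.accepts ↔ n ∈ B)

/-- the same, most significant digit first -/
def RecogMSB (k : ℕ) (B : Set ℕ) : Prop :=
  ∃ (σ : Type) (_ : Fintype σ) (M : DFA (Fin k) σ), ∀ n, 0 < n →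
    ∀ w : List (Fin k), w.map Fin.val = (Nat.digits k n).reverse → (w ∈ M.accepts ↔ n ∈ B)

theorem digits_step {k : ℕ} (hk : 1 < k) {x d : ℕ} (hx : 0 < x) (hd : d < k) :
    Nat.digits k (k * x + d) = d :: Nat.digits k x := by
  rw [add_comm]
  exact Nat.digits_add k hk d x hd (Or.inr (by omega))

theorem aut_of_LSB {k : ℕ} (hk : 1 < k) {B : Set ℕ} (h : RecogLSB k B) :
    ∃ (F : Type) (_ : Finite F) (c : ℕ → F), Aut (fun n => n ∈ B) k F c := by
  obtain ⟨σ, _, M, hM⟩ := h
  have hacc : ∀ n, 0 < n → ((Nat.digits k n).foldl (extend M) M.start ∈ M.accept ↔ n ∈ B) := by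
    intro n hn
    obtain ⟨w, hw⟩ := exists_word (k := k) (Nat.digits k n) fun d hd => Nat.digits_lt_base hk hd
    rw [← hM n hn w hw, ← hw, foldl_extend]
    rfl
  refine ⟨σ → Prop, inferInstance, fun x q => (Nat.digits k x).foldl (extend M) q ∈ M.accept, ?_, ?_⟩
  · intro x y hx hy hc
    have := congrFun hc M.start
    simp only [eq_iff_iff] at this
    rw [hacc x hx, hacc y hy] at this
    exact this
  · intro x y hx hy hc d hd
    funext q
    have := congrFun hc (extend M q d)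
    simp only [digits_step hk hx hd, digits_step hk hy hd, List.foldl_cons]
    exact this

theorem aut_of_MSB {k : ℕ} (hk : 1 < k) {B : Set ℕ} (h : RecogMSB k B) :
    ∃ (F : Type) (_ : Finite F) (c : ℕ → F), Aut (fun n => n ∈ B) k F c := by
  obtain ⟨σ, _, M, hM⟩ := h
  have hacc : ∀ n, 0 < n → ((Nat.digits k n).reverse.foldl (extend M) M.start ∈ M.accept ↔ n ∈ B) := by
    intro n hn
    obtain ⟨w, hw⟩ := exists_word (k := k) (Nat.digits k n).reverse
      fun d hd => Nat.digits_lt_base hk (List.mem_reverse.1 hd)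
    rw [← hM n hn w hw, ← hw, foldl_extend]
    rfl
  refine ⟨σ, inferInstance, fun x => (Nat.digits k x).reverse.foldl (extend M) M.start, ?_, ?_⟩
  · intro x y hx hy hc
    have hc' : (Nat.digits k x).reverse.foldl (extend M) M.start =
      (Nat.digits k y).reverse.foldl (extend M) M.start := hc
    rw [← hacc x hx, ← hacc y hy, hc']
  · intro x y hx hy hc d hd
    simp only [digits_step hk hx hd, digits_step hk hy hd, List.reverse_cons, List.foldl_append,
      List.foldl_cons, List.foldl_nil]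
    have hc' : (Nat.digits k x).reverse.foldl (extend M) M.start =
      (Nat.digits k y).reverse.foldl (extend M) M.start := hc
    rw [hc']

/-- the Collatz map -/
def col (m : ℕ) : ℕ := if m % 2 = 0 then m / 2 else 3 * m + 1

theorem inv_of {B : Set ℕ} (hB : ∀ n, 0 < n → (n ∈ B ↔ col n ∈ B)) : Inv (fun n => n ∈ B) where
  dbl := by
    intro n hn
    have h := hB (2 * n) (by omega)
    have e : col (2 * n) = n := by simp [col]
    rw [e] at h
    exact h
  odd := by
    intro n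
    have h := hB (2 * n + 1) (by omega)
    have e : col (2 * n + 1) = 2 * (3 * n + 2) := by
      have : (2 * n + 1) % 2 ≠ 0 := by omega
      simp only [col, if_neg this]; ring
    have h' := hB (2 * (3 * n + 2)) (by omega)
    have e' : col (2 * (3 * n + 2)) = 3 * n + 2 := by
      have : (2 * (3 * n + 2)) % 2 = 0 := by omega
      simp only [col, if_pos this]; omega
    rw [e, h', e'] at h
    exact h

theorem main {k : ℕ} (hk : 2 ≤ k) (hk' : 2 ∣ k ∨ ∃ b, k = 3 ^ b) {B : Set ℕ}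
    (hB : ∀ n, 0 < n → (n ∈ B ↔ col n ∈ B)) (h : RecogLSB k B ∨ RecogMSB k B) :
    (∀ n, 0 < n → n ∈ B) ∨ (∀ n, 0 < n → n ∉ B) := by
  have hg := inv_of hB
  obtain ⟨F, hF, c, hc⟩ : ∃ (F : Type) (_ : Finite F) (c : ℕ → F), Aut (fun n => n ∈ B) k F c := by
    rcases h with h | h
    · exact aut_of_LSB (by omega) h
    · exact aut_of_MSB (by omega) h
  rcases hk' with ⟨l, rfl⟩ | ⟨b, rfl⟩
  · exact const_even hg (by omega) hc
  · have hb : 0 < b := by
      rcases Nat.eq_zero_or_pos b with h0 | h0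
      · subst h0; norm_num at hk
      · exact h0
    exact const_three hg hb hc

end Pool.Agent.W_e21d3a_h20
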