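import Mathlib
import Pool.Agent.W_e21d3a_h20.ApproxOdd
import Pool.Agent.W_e21d3a_h20.Auto

set_option autoImplicit false

namespace Pool.Agent.W_e21d3a_h20

/-- blocks of length `Q` attached to equivalent prefixes agree -/
def PA (h : ℕ → Prop) {F : Type} (c : ℕ → F) (Q : ℕ) : Prop :=
  ∀ x y, 0 < x → 0 < y → c x = c y → ∀ z, z < Q → (h (Q * x + z) ↔ h (Q * y + z))

theorem PA2 {h : ℕ → Prop} {F : Type} {c : ℕ → F} {Q : ℕ} (hQ : PA h c Q) :
    ∀ x y, 0 < x → 0 < y → c x = c y → c (x + 1) = c (y + 1) →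
      ∀ z, z < 2 * Q → (h (Q * x + z) ↔ h (Q * y + z)) := by
  intro x y hx hy hc hc1 z hz
  rcases lt_or_ge z Q with h | h
  · exact hQ x y hx hy hc z h
  · have := hQ (x + 1) (y + 1) (by omega) (by omega) hc1 (z - Q) (by omega)
    have e1 : Q * (x + 1) + (z - Q) = Q * x + z := by
      rw [mul_add, mul_one]; omega
    have e2 : Q * (y + 1) + (z - Q) = Q * y + z := by
      rw [mul_add, mul_one]; omega
    rwa [e1, e2] at this

/-- Cobham's theorem for the bases 2 and `K` odd, with Krebs' proof -/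
theorem cobham {h : ℕ → Prop} {F : Type} [Finite F] {c : ℕ → F} {K : ℕ} (hK3 : 3 ≤ K) (hKodd : Odd K)
    (H2 : ∀ w, PA h c (2 ^ w)) (HK : ∀ u, PA h c (K ^ u)) :
    ∃ p, 0 < p ∧ ∃ V, ∀ v, V ≤ v → (h (v + p) ↔ h v) := by
  classical
  obtain ⟨B, hB⟩ := exists_bound (fun x => (c x, c (x + 1)))
  set D := Nat.factorial B with hD
  have hDpos : 0 < D := Nat.factorial_pos B
  obtain ⟨u, w, a, b, hab, hba, hC⟩ := approx_odd hK3 hKodd (1 + D + B)
  have hQ : PA h c a ∧ PA h c b := by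
    rcases hab with ⟨rfl, rfl⟩ | ⟨rfl, rfl⟩
    · exact ⟨HK u, H2 w⟩
    · exact ⟨H2 w, HK u⟩
  obtain ⟨hQa, hQb⟩ := hQ
  set ρ := a - b with hρ
  have hρpos : 0 < ρ := by omega
  have h12 : a = b + ρ := by omega
  have hCρ : (1 + D + B) * ρ ≤ b := hC
  have hQ1pos : 0 < a := by omega
  refine ⟨D * ρ, Nat.mul_pos hDpos hρpos, (B + 1) * a, ?_⟩
  intro v hv
  set y := v / a with hy
  set z := v % a with hz
  have hvz : v = a * y + z := (Nat.div_add_mod v a).symm
  have hyB : B < y := by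
    have : B + 1 ≤ y := (Nat.le_div_iff_mul_le hQ1pos).2 hv
    omega
  have hzQ : z < a := Nat.mod_lt _ hQ1pos
  obtain ⟨x, y', hx, hxy, hy'B, hcx, hcy⟩ := hB y hyB
  simp only [Prod.mk.injEq] at hcx hcy
  set p := (y' - x) * ρ with hp
  have hstep : ∀ s, s + p < 2 * b - x * ρ →
      (h (a * y' + (s + p)) ↔ h (a * y' + s)) := by
    intro s hs
    have hxρ : x * ρ ≤ B * ρ := Nat.mul_le_mul_right _ (by omega)
    have hlt1 : s + p < 2 * a := by omega
    have e1 := PA2 hQa y' x (by omega) hx (hcy.1.trans hcx.1.symm) (hcy.2.trans hcx.2.symm)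
      (s + p) hlt1
    have e2 : a * x + (s + p) = b * x + (x * ρ + (s + p)) := by
      rw [h12]; ring
    have e3 := PA2 hQb x y' hx (by omega) (hcx.1.trans hcy.1.symm) (hcx.2.trans hcy.2.symm)
      (x * ρ + (s + p)) (by omega)
    have e4 : b * y' + (x * ρ + (s + p)) = a * y' + s := by
      rw [hp]
      obtain ⟨d, rfl⟩ : ∃ d, y' = x + d := ⟨y' - x, by omega⟩
      have : x + d - x = d := by omega
      rw [this]
      calc b * (x + d) + (x * ρ + (s + d * ρ)) = (b + ρ) * (x + d) + s := by ring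
        _ = _ := by rw [← h12]
    rw [e1, e2, e3, e4]
  have hmult : ∀ t s, s + t * p < 2 * b - x * ρ →
      (h (a * y' + (s + t * p)) ↔ h (a * y' + s)) := by
    intro t
    induction t with
    | zero => intro s _; simp
    | succ t ih =>
      intro s hs
      have e : s + (t + 1) * p = (s + p) + t * p := by ring
      rw [e, ih (s + p) (by rw [← e]; exact hs)]
      exact hstep s (by rw [e] at hs; have : 0 ≤ t * p := Nat.zero_le _; omega)
  have hdvd : (y' - x) ∣ D := Nat.dvd_factorial (by omega) (by omega)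
  obtain ⟨t, ht⟩ := hdvd
  have hDρ : D * ρ = t * p := by rw [ht, hp]; ring
  have hrange : z + D * ρ < 2 * b - x * ρ := by
    have hxρ : x * ρ ≤ B * ρ := Nat.mul_le_mul_right _ (by omega)
    have e : (1 + D + B) * ρ = ρ + D * ρ + B * ρ := by ring
    rw [e] at hCρ
    omega
  have hrange1 : z + D * ρ < 2 * a := by omega
  have f1 := PA2 hQa y y' (by omega) (by omega) hcy.1.symm hcy.2.symm (z + D * ρ) hrange1
  have f2 := PA2 hQa y y' (by omega) (by omega) hcy.1.symm hcy.2.symm z (by omega)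
  have f3 := hmult t z (by rw [← hDρ]; exact hrange)
  rw [← hDρ] at f3
  have e5 : v + D * ρ = a * y + (z + D * ρ) := by
    calc v + D * ρ = (a * y + z) + D * ρ := by rw [← hvz]
      _ = _ := by ring
  rw [e5, f1, f3, ← f2, ← hvz]

end Pool.Agent.W_e21d3a_h20
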