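import Mathlib
import Pool.Agent.W_e21d3a_h20.Reach

set_option autoImplicit false

namespace Pool.Agent.W_e21d3a_h20

variable {g : ℕ → Prop}

theorem four_pow (M : ℕ) : ∃ τ, 4 ^ (3 ^ M) = 1 + 3 ^ (M + 1) * τ ∧ τ % 3 ≠ 0 := by
  induction M with
  | zero => exact ⟨1, by norm_num, by norm_num⟩
  | succ M ih =>
    obtain ⟨τ, h1, h2⟩ := ih
    refine ⟨τ + 3 * (3 ^ M * τ ^ 2 + 3 ^ (2 * M) * τ ^ 3), ?_, by omega⟩
    rw [pow_succ 3 M, pow_mul, h1]
    have e1 : 3 ^ (M + 1) = 3 * 3 ^ M := by ring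
    have e2 : 3 ^ (M + 1 + 1) = 9 * 3 ^ M := by ring
    have e3 : 3 ^ (2 * M) = 3 ^ M * 3 ^ M := by rw [two_mul, pow_add]
    rw [e1, e2, e3]
    ring

theorem one_add_pow' (M τ n : ℕ) : ∃ r, (1 + 3 ^ (M + 1) * τ) ^ n = 1 + 3 ^ (M + 1) * (τ * n) + 3 ^ (M + 2) * r := by
  induction n with
  | zero => exact ⟨0, by simp⟩
  | succ n ih =>
    obtain ⟨r, hr⟩ := ih
    refine ⟨r + 3 ^ (M + 1) * r * τ + 3 ^ M * (τ * n) * τ, ?_⟩
    rw [pow_succ, hr]
    have e1 : 3 ^ (M + 1) = 3 * 3 ^ M := by ring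
    have e2 : 3 ^ (M + 2) = 9 * 3 ^ M := by ring
    rw [e1, e2]
    ring

/-- a power of two which is close to one moves `v` to `w` -/
theorem adj (M l v w : ℕ) (hl : l % 3 ≠ 0) (hv : v % 3 ≠ 0) (hvw : v ≡ w [MOD 3 ^ (M + 1)]) :
    ∃ c, 0 < c ∧ 4 ^ (3 ^ M * (l * c)) * v ≡ w [MOD 3 ^ (M + 2)] := by
  obtain ⟨τ, h1, h2⟩ := four_pow M
  -- w = v + 3^(M+1) u  (mod 3^(M+2))
  obtain ⟨u, hu⟩ : ∃ u, v + 3 ^ (M + 1) * u ≡ w [MOD 3 ^ (M + 2)] := by
    have h3 : (3:ℕ) ^ (M + 2) = 3 ^ (M + 1) * 3 := by ring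
    rcases le_total v w with hle | hle
    · obtain ⟨u, hu⟩ := (Nat.modEq_iff_dvd' hle).1 hvw
      refine ⟨u, ?_⟩
      have : v + 3 ^ (M + 1) * u = w := by omega
      rw [this]
    · obtain ⟨u, hu⟩ := (Nat.modEq_iff_dvd' hle).1 hvw.symm
      refine ⟨2 * u, ?_⟩
      have : v + 3 ^ (M + 1) * (2 * u) = w + 3 ^ (M + 2) * u := by
        rw [h3]
        have : v = w + 3 ^ (M + 1) * u := by omega
        rw [this]; ring
      rw [this]
      simp [Nat.ModEq]
  -- choose c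
  have hτlv : (τ * l * v) % 3 ≠ 0 := by
    intro h0
    have h3 : 3 ∣ τ * l * v := Nat.dvd_of_mod_eq_zero h0
    rcases (Nat.Prime.dvd_mul Nat.prime_three).1 h3 with h4 | h4
    · rcases (Nat.Prime.dvd_mul Nat.prime_three).1 h4 with h5 | h5 <;> omega
    · omega
  obtain ⟨c, hc0, hc⟩ : ∃ c, 0 < c ∧ (τ * l * v * c) % 3 = u % 3 := by
    have h3 : ∀ a b : Fin 3, a ≠ 0 → ∃ c : Fin 3, a * c = b := by decide
    set a := τ * l * v with ha
    have ha' : a % 3 = 1 ∨ a % 3 = 2 := by omega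
    have hu' : u % 3 = 0 ∨ u % 3 = 1 ∨ u % 3 = 2 := by omega
    rcases ha' with ha' | ha' <;> rcases hu' with hu' | hu' | hu'
    · exact ⟨3, by norm_num, by omega⟩
    · exact ⟨1, by norm_num, by omega⟩
    · exact ⟨2, by norm_num, by omega⟩
    · exact ⟨3, by norm_num, by omega⟩
    · exact ⟨2, by norm_num, by omega⟩
    · exact ⟨1, by norm_num, by omega⟩
  refine ⟨c, hc0, ?_⟩
  obtain ⟨r, hr⟩ := one_add_pow' M τ (l * c)
  rw [pow_mul, h1, hr]
  refine Nat.ModEq.trans ?_ hu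
  have e : (1 + 3 ^ (M + 1) * (τ * (l * c)) + 3 ^ (M + 2) * r) * v =
      v + 3 ^ (M + 1) * (τ * l * v * c) + 3 ^ (M + 2) * (r * v) := by ring
  rw [e]
  have h4 : 3 ^ (M + 1) * (τ * l * v * c) ≡ 3 ^ (M + 1) * u [MOD 3 ^ (M + 2)] := by
    have : τ * l * v * c ≡ u [MOD 3] := hc
    have := Nat.ModEq.mul_left' (3 ^ (M + 1)) this
    rwa [← pow_succ] at this
  have h5 : v + 3 ^ (M + 1) * (τ * l * v * c) + 3 ^ (M + 2) * (r * v) ≡
      v + 3 ^ (M + 1) * (τ * l * v * c) [MOD 3 ^ (M + 2)] := by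
    simp [Nat.ModEq]
  exact h5.trans (Nat.ModEq.add_left v h4)

/-- two is a primitive root modulo powers of three -/
theorem two_gen (M : ℕ) : ∀ v w, v % 3 ≠ 0 → w % 3 ≠ 0 → ∃ e, 2 ^ e * v ≡ w [MOD 3 ^ (M + 1)] := by
  induction M with
  | zero =>
    intro v w hv hw
    have h3 : (v % 3 = 1 ∨ v % 3 = 2) := by omega
    have h4 : (w % 3 = 1 ∨ w % 3 = 2) := by omega
    simp only [zero_add, pow_one, Nat.ModEq]
    rcases h3 with h3 | h3 <;> rcases h4 with h4 | h4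
    · exact ⟨0, by omega⟩
    · exact ⟨1, by omega⟩
    · exact ⟨1, by omega⟩
    · exact ⟨0, by omega⟩
  | succ M ih =>
    intro v w hv hw
    obtain ⟨e, he⟩ := ih v w hv hw
    have hv' : (2 ^ e * v) % 3 ≠ 0 := by
      intro h0
      have h3 : 3 ∣ 2 ^ e * v := Nat.dvd_of_mod_eq_zero h0
      rcases (Nat.Prime.dvd_mul Nat.prime_three).1 h3 with h4 | h4
      · have := Nat.Prime.dvd_of_dvd_pow Nat.prime_three h4
        omega
      · omega
    obtain ⟨c, _, hc⟩ := adj M 1 (2 ^ e * v) w (by norm_num) hv' he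
    refine ⟨2 * (3 ^ M * (1 * c)) + e, ?_⟩
    have e4 : 2 ^ (2 * (3 ^ M * (1 * c)) + e) * v = 4 ^ (3 ^ M * (1 * c)) * (2 ^ e * v) := by
      rw [show (4:ℕ) = 2 ^ 2 by norm_num, ← pow_mul, pow_add]; ring
    rw [e4]
    exact hc

theorem dbl_pow (hg : Inv g) (e : ℕ) : ∀ n, 0 < n → (g (2 ^ e * n) ↔ g n) := by
  induction e with
  | zero => intro n _; simp
  | succ e ih =>
    intro n hn
    rw [show 2 ^ (e + 1) * n = 2 * (2 ^ e * n) by ring, hg.dbl _ (by positivity), ih n hn]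

/-- `g` has the value `G` on the residue class of `a` modulo `N` -/
def Good (g : ℕ → Prop) (G : Prop) (N a : ℕ) : Prop := ∀ v, 0 < v → v ≡ a [MOD N] → (g v ↔ G)

variable {G : Prop} {N : ℕ}

theorem Good.congr {a b : ℕ} (h : Good g G N a) (hab : a ≡ b [MOD N]) : Good g G N b :=
  fun v hv hvb => h v hv (hvb.trans hab.symm)

theorem Good.half (hg : Inv g) {a : ℕ} (h : Good g G N (2 * a)) : Good g G N a := by
  intro v hv hva
  rw [← hg.dbl v hv]
  exact h (2 * v) (by omega) (Nat.ModEq.mul_left 2 hva)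

theorem Good.half_pow (hg : Inv g) (e : ℕ) : ∀ {a : ℕ}, Good g G N (2 ^ e * a) → Good g G N a := by
  induction e with
  | zero => intro a h; simpa using h
  | succ e ih =>
    intro a h
    rw [show 2 ^ (e + 1) * a = 2 * (2 ^ e * a) by ring] at h
    exact ih (h.half hg)

theorem Good.double (hg : Inv g) (hN : Odd N) {a : ℕ} (h : Good g G N a) : Good g G N (2 * a) := by
  have hN0 : 0 < N := hN.pos
  have hcop : Nat.Coprime 2 N := by
    rw [Nat.coprime_comm]; exact Nat.coprime_two_right.2 hN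
  have h1 : 2 ^ Nat.totient N ≡ 1 [MOD N] := Nat.ModEq.pow_totient hcop
  have ht : 0 < Nat.totient N := Nat.totient_pos.2 hN0
  obtain ⟨o, ho⟩ : ∃ o, Nat.totient N = o + 1 := ⟨Nat.totient N - 1, by omega⟩
  rw [ho] at h1
  apply Good.half_pow hg o
  have e : 2 ^ o * (2 * a) = 2 ^ (o + 1) * a := by ring
  rw [e]
  apply h.congr
  have := (Nat.ModEq.mul_right a h1).symm
  simpa using this

theorem odd_rule (hg : Inv g) {y : ℕ} (hy : y % 2 = 1) : g (3 * y + 1) ↔ g y := by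
  obtain ⟨m, rfl⟩ : ∃ m, y = 2 * m + 1 := ⟨y / 2, by omega⟩
  rw [show 3 * (2 * m + 1) + 1 = 2 * (3 * m + 2) by ring, hg.dbl _ (by omega), hg.odd]

/-- the key step: the class of `a` gives the class of `3 a + 1` -/
theorem Good.trip (hg : Inv g) {q M : ℕ} (hq : Nat.Coprime 3 q) (hq2 : Odd q) {β l : ℕ}
    (hl : l % 3 ≠ 0) (htot : Nat.totient q = 3 ^ β * l) (hM : β ≤ M) {a : ℕ}
    (h : Good g G (3 ^ (M + 1) * q) a) : Good g G (3 ^ (M + 1) * q) (3 * a + 1) := by
  intro v hv hva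
  have hva3 : v ≡ 3 * a + 1 [MOD 3 ^ (M + 1)] := Nat.ModEq.of_mul_right q hva
  have hvaq : v ≡ 3 * a + 1 [MOD q] := Nat.ModEq.of_mul_left (3 ^ (M + 1)) hva
  have hv3 : v % 3 ≠ 0 := by
    have : v ≡ 3 * a + 1 [MOD 3] := by
      rw [pow_succ'] at hva3
      exact Nat.ModEq.of_mul_right (3 ^ M) hva3
    unfold Nat.ModEq at this
    omega
  obtain ⟨c, hc0, hc⟩ := adj M l v (3 * a + 1) hl hv3 hva3
  set E := 4 ^ (3 ^ M * (l * c)) with hE
  have hE2 : E = 2 ^ (2 * (3 ^ M * (l * c))) := by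
    rw [hE, show (4:ℕ) = 2 ^ 2 by norm_num, ← pow_mul]
  have hl0 : 0 < l := by omega
  have hpos : 0 < 3 ^ M * (l * c) := by positivity
  have hEeven : E % 2 = 0 := by
    obtain ⟨t, ht⟩ : ∃ t, 3 ^ M * (l * c) = t + 1 := ⟨3 ^ M * (l * c) - 1, by omega⟩
    rw [hE, ht, pow_succ]; omega
  have hEpos : 0 < E := by positivity
  -- E = 1 mod q
  have hEq : E ≡ 1 [MOD q] := by
    have h2q : Nat.Coprime 2 q := by rw [Nat.coprime_comm]; exact Nat.coprime_two_right.2 hq2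
    have h1 : 2 ^ Nat.totient q ≡ 1 [MOD q] := Nat.ModEq.pow_totient h2q
    obtain ⟨s, hs⟩ : ∃ s, M = β + s := ⟨M - β, by omega⟩
    have e : 2 * (3 ^ M * (l * c)) = Nat.totient q * (2 * 3 ^ s * c) := by
      rw [htot, hs, pow_add]; ring
    rw [hE2, e, pow_mul]
    have := h1.pow (2 * 3 ^ s * c)
    simpa using this
  -- E v = 3 a + 1 mod 3^(M+2) q
  have hEv : E * v ≡ 3 * a + 1 [MOD 3 ^ (M + 2) * q] := by
    have hcop : Nat.Coprime (3 ^ (M + 2)) q := Nat.Coprime.pow_left _ hq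
    refine (Nat.modEq_and_modEq_iff_modEq_mul hcop).1 ⟨hc, ?_⟩
    have := (Nat.ModEq.mul_right v hEq).trans (by simpa using hvaq)
    exact this
  have hEv1 : (E * v) % 3 = 1 := by
    have : E * v ≡ 3 * a + 1 [MOD 3] := by
      have h3 : (3:ℕ) ^ (M + 2) * q = 3 * (3 ^ (M + 1) * q) := by ring
      rw [h3] at hEv
      exact Nat.ModEq.of_mul_right _ hEv
    unfold Nat.ModEq at this
    omega
  obtain ⟨y, hy⟩ : ∃ y, E * v = 3 * y + 1 := ⟨E * v / 3, by omega⟩
  have hyodd : y % 2 = 1 := by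
    have : (E * v) % 2 = 0 := by rw [Nat.mul_mod, hEeven]; simp
    omega
  have hya : y ≡ a [MOD 3 ^ (M + 1) * q] := by
    rw [hy, show (3:ℕ) ^ (M + 2) * q = 3 * (3 ^ (M + 1) * q) by ring] at hEv
    have h1 : 3 * y ≡ 3 * a [MOD 3 * (3 ^ (M + 1) * q)] := Nat.ModEq.add_right_cancel' 1 hEv
    exact Nat.ModEq.mul_left_cancel' (by norm_num) h1
  have h1 := h y (by omega) hya
  rw [← odd_rule hg hyodd, ← hy, hE2, dbl_pow hg _ v hv] at h1
  exact h1

theorem Good.trip_iter (hg : Inv g) {q M : ℕ} (hq : Nat.Coprime 3 q) (hq2 : Odd q) {β l : ℕ}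
    (hl : l % 3 ≠ 0) (htot : Nat.totient q = 3 ^ β * l) (hM : β ≤ M) (n : ℕ) : ∀ {a : ℕ},
    Good g G (3 ^ (M + 1) * q) a → Good g G (3 ^ (M + 1) * q) (3 ^ n * a + (3 ^ n - 1) / 2) := by
  induction n with
  | zero => intro a h; simpa using h
  | succ n ih =>
    intro a h
    have h1 := (ih h).trip hg hq hq2 hl htot hM
    have e : 3 * (3 ^ n * a + (3 ^ n - 1) / 2) + 1 = 3 ^ (n + 1) * a + (3 ^ (n + 1) - 1) / 2 := by
      have h2 := three_pow_odd n
      have h3 : 3 ^ (n + 1) = 3 * 3 ^ n := by ring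
      have h4 : 0 < 3 ^ n := by positivity
      rw [h3, mul_assoc]
      omega
    rwa [e] at h1

/-- the value is constant on the integers prime to 3 -/
theorem all_of_good (hg : Inv g) {q M : ℕ} (hq : Nat.Coprime 3 q) (hq2 : Odd q) {β l : ℕ}
    (hl : l % 3 ≠ 0) (htot : Nat.totient q = 3 ^ β * l) (hM : β ≤ M) {a₀ : ℕ}
    (h₀ : Good g G (3 ^ (M + 1) * q) a₀) : ∀ x, 0 < x → x % 3 ≠ 0 → (g x ↔ G) := by
  classical
  have hq0 : NeZero q := ⟨hq2.pos.ne'⟩
  set κ := 3 ^ (M + 1) with hκ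
  set T := (κ - 1) / 2 with hT
  have hκ3 : κ % 3 = 0 := by rw [hκ, pow_succ]; omega
  have hκ2 : κ % 2 = 1 := three_pow_odd (M + 1)
  have hκ0 : 0 < κ := by positivity
  have hT3 : T % 3 = 1 := by omega
  have hcop : Nat.Coprime κ q := Nat.Coprime.pow_left _ hq
  have hNodd : Odd (κ * q) := (Nat.odd_iff.2 hκ2).mul hq2
  let H : ZMod q → Prop := fun s => ∀ a : ℕ, (a : ZMod q) = s → a ≡ T [MOD κ] → Good g G (κ * q) a
  have hH : ∀ a : ℕ, a ≡ T [MOD κ] → Good g G (κ * q) a → H (a : ZMod q) := by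
    intro a haT ha b hb hbT
    apply ha.congr
    refine (Nat.modEq_and_modEq_iff_modEq_mul hcop).1 ⟨haT.trans hbT.symm, ?_⟩
    exact ((ZMod.natCast_eq_natCast_iff b a q).1 hb).symm
  have hrep : ∀ s : ZMod q, ∃ a : ℕ, (a : ZMod q) = s ∧ a ≡ T [MOD κ] := by
    intro s
    obtain ⟨a, ha1, ha2⟩ := Nat.chineseRemainder hcop T s.val
    refine ⟨a, ?_, ha1⟩
    have := (ZMod.natCast_eq_natCast_iff a s.val q).2 ha2
    rw [this]; simp
  -- the two moves
  have hW : ∀ {a : ℕ}, Good g G (κ * q) a → Good g G (κ * q) (κ * a + T) := by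
    intro a h
    exact h.trip_iter hg hq hq2 hl htot hM (M + 1)
  have hWT : ∀ a, κ * a + T ≡ T [MOD κ] := by
    intro a; simp [Nat.ModEq]
  have hα : ∀ s, H s → H (κ * (6 * s + 1) + T) := by
    intro s hs
    obtain ⟨a, rfl, haT⟩ := hrep s
    have h1 := hs a rfl haT
    have h2 := hW ((h1.double hg hNodd).trip hg hq hq2 hl htot hM)
    have h3 := hH _ (hWT _) h2
    have e : ((κ * (3 * (2 * a) + 1) + T : ℕ) : ZMod q) = κ * (6 * (a : ZMod q) + 1) + T := by
      push_cast; ring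
    rwa [e] at h3
  have hβ : ∀ s, H s → H (κ * (6 * s + 1) + T + κ) := by
    intro s hs
    obtain ⟨a, rfl, haT⟩ := hrep s
    have h1 := hs a rfl haT
    have h2 := hW ((h1.trip hg hq hq2 hl htot hM).double hg hNodd)
    have h3 := hH _ (hWT _) h2
    have e : ((κ * (2 * (3 * a + 1)) + T : ℕ) : ZMod q) = κ * (6 * (a : ZMod q) + 1) + T + κ := by
      push_cast; ring
    rwa [e] at h3
  -- the map is injective
  have hu6 : IsUnit (6 : ZMod q) := by
    have h6 : Nat.Coprime 6 q := by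
      rw [show (6:ℕ) = 2 * 3 by norm_num]
      apply Nat.Coprime.mul_left _ hq
      rw [Nat.coprime_comm]; exact Nat.coprime_two_right.2 hq2
    have := (ZMod.isUnit_iff_coprime 6 q).2 h6
    simpa using this
  have huκ : IsUnit (κ : ZMod q) := (ZMod.isUnit_iff_coprime κ q).2 hcop
  let α : ZMod q → ZMod q := fun s => κ * (6 * s + 1) + T
  have hαinj : Function.Injective α := by
    intro s s' h
    have h1 : (κ : ZMod q) * (6 * s + 1) = κ * (6 * s' + 1) := add_right_cancel h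
    have h2 := huκ.mul_left_cancel h1
    have h3 : (6 : ZMod q) * s = 6 * s' := add_right_cancel h2
    exact hu6.mul_left_cancel h3
  let S : Finset (ZMod q) := Finset.univ.filter H
  have hSα : S.image α = S := by
    apply Finset.eq_of_subset_of_card_le
    · intro t ht
      obtain ⟨s, hs, rfl⟩ := Finset.mem_image.1 ht
      exact Finset.mem_filter.2 ⟨Finset.mem_univ _, hα s (Finset.mem_filter.1 hs).2⟩
    · rw [Finset.card_image_of_injective _ hαinj]
  have hshift : ∀ u, H u → H (u + κ) := by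
    intro u hu
    have : u ∈ S.image α := by rw [hSα]; exact Finset.mem_filter.2 ⟨Finset.mem_univ _, hu⟩
    obtain ⟨s, hs, rfl⟩ := Finset.mem_image.1 this
    exact hβ s (Finset.mem_filter.1 hs).2
  have hshiftn : ∀ n : ℕ, ∀ u, H u → H (u + n * κ) := by
    intro n
    induction n with
    | zero => intro u hu; simpa using hu
    | succ n ih =>
      intro u hu
      have := hshift _ (ih u hu)
      have e : u + (n : ZMod q) * κ + κ = u + ((n + 1 : ℕ) : ZMod q) * κ := by push_cast; ring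
      rwa [e] at this
  have hall : ∀ s, H s := by
    intro s
    have h1 := hH _ (hWT a₀) (hW h₀)
    set u := ((κ * a₀ + T : ℕ) : ZMod q) with hu
    obtain ⟨w, hw⟩ := huκ
    have h2 := hshiftn ((s - u) * (w⁻¹ : (ZMod q)ˣ) : ZMod q).val u h1
    have e : u + ((((s - u) * (w⁻¹ : (ZMod q)ˣ) : ZMod q).val : ℕ) : ZMod q) * κ = s := by
      rw [ZMod.natCast_zmod_val, ← hw, mul_assoc, Units.inv_mul, mul_one]; ring
    rwa [e] at h2
  intro x hx hx3
  obtain ⟨e, he⟩ := two_gen M x T hx3 (by omega)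
  have h1 := hall ((2 ^ e * x : ℕ) : ZMod q) (2 ^ e * x) rfl he
  have h2 := h1 (2 ^ e * x) (by positivity) rfl
  rwa [dbl_pow hg e x hx] at h2

/-- arithmetic progressions are sufficient (Monks), in the form of a statement on invariant predicates -/
theorem monks (hg : Inv g) {N R : ℕ} (hN : 0 < N) (h : ∀ n, 0 < n → (g (N * n + R) ↔ G)) :
    ∀ x, 0 < x → (g x ↔ G) := by
  -- make the modulus odd
  obtain ⟨N1, R1, hN1, hN1pos, h1⟩ : ∃ N1 R1, Odd N1 ∧ 0 < N1 ∧ ∀ n, 0 < n → (g (N1 * n + R1) ↔ G) := by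
    obtain ⟨a, N', hN', rfl⟩ := Nat.exists_eq_two_pow_mul_odd hN.ne'
    obtain ⟨m, b, hb, hf⟩ := fwd hg a (R % 2 ^ a) (Nat.mod_lt _ (by positivity))
    refine ⟨3 ^ m * N', 3 ^ m * (R / 2 ^ a) + b, (Odd.pow (by decide)).mul hN', ?_, ?_⟩
    · have := hN'.pos
      positivity
    · intro n hn
      have hpos : 0 < N' * n + R / 2 ^ a := by
        have := hN'.pos
        positivity
      have e1 : 3 ^ m * N' * n + (3 ^ m * (R / 2 ^ a) + b) = 3 ^ m * (N' * n + R / 2 ^ a) + b := by ring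
      have e2 : 2 ^ a * N' * n + R = 2 ^ a * (N' * n + R / 2 ^ a) + R % 2 ^ a := by
        calc 2 ^ a * N' * n + R = 2 ^ a * N' * n + (2 ^ a * (R / 2 ^ a) + R % 2 ^ a) := by
              rw [Nat.div_add_mod]
          _ = _ := by ring
      rw [e1, ← hf _ hpos, ← e2]
      exact h n hn
  -- residue prime to three
  obtain ⟨s, e, he, hs⟩ : ∃ s e, e < 2 ∧ N1 * e + R1 = 2 * s + 1 := by
    have h2 : N1 % 2 = 1 := Nat.odd_iff.1 hN1
    rcases Nat.mod_two_eq_zero_or_one R1 with h3 | h3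
    · exact ⟨(N1 + R1) / 2, 1, by norm_num, by omega⟩
    · exact ⟨R1 / 2, 0, by norm_num, by omega⟩
  have h2 : ∀ n, 0 < n → (g (3 * N1 * n + (3 * s + 2)) ↔ G) := by
    intro n hn
    have e1 : 3 * N1 * n + (3 * s + 2) = 3 * (N1 * n + s) + 2 := by ring
    rw [e1, ← hg.odd]
    have e2 : 2 * (N1 * n + s) + 1 = N1 * (2 * n + e) + R1 := by
      calc 2 * (N1 * n + s) + 1 = 2 * (N1 * n) + (2 * s + 1) := by ring
        _ = 2 * (N1 * n) + (N1 * e + R1) := by rw [hs]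
        _ = _ := by ring
    rw [e2]
    exact h1 _ (by omega)
  -- factor out the powers of three
  obtain ⟨b, q, hq3, hbq⟩ := Nat.exists_eq_pow_mul_and_not_dvd (n := 3 * N1) (by omega) 3 (by norm_num)
  have hqodd : Odd q := by
    have : Odd (3 * N1) := (by decide : Odd 3).mul hN1
    rw [hbq] at this
    exact (Nat.odd_mul.1 this).2
  have hq0 : 0 < q := hqodd.pos
  have hqcop : Nat.Coprime 3 q := (Nat.Prime.coprime_iff_not_dvd Nat.prime_three).2 hq3
  obtain ⟨β, l, hl3, htot⟩ := Nat.exists_eq_pow_mul_and_not_dvd (n := Nat.totient q)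
    (Nat.totient_pos.2 hq0).ne' 3 (by norm_num)
  set M := b + β with hM
  have hgood : Good g G (3 ^ (M + 1) * q) (3 * s + 2) := by
    intro v hv hva
    -- multiply by a power of two which is one modulo the modulus
    set L := 3 ^ (M + 1) * q with hL
    have hLodd : Odd L := (Odd.pow (by decide)).mul hqodd
    have hL0 : 0 < L := hLodd.pos
    have hcop : Nat.Coprime 2 L := by rw [Nat.coprime_comm]; exact Nat.coprime_two_right.2 hLodd
    have h1 : 2 ^ Nat.totient L ≡ 1 [MOD L] := Nat.ModEq.pow_totient hcop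
    set w := 3 * s + 2 + L + 1 with hw
    have h3 : 2 ^ (Nat.totient L * w) * v ≡ 3 * s + 2 [MOD L] := by
      rw [pow_mul]
      have := (h1.pow w).mul_right v
      simp only [one_pow, one_mul] at this
      exact this.trans hva
    have hbig : w ≤ 2 ^ (Nat.totient L * w) * v := by
      have ht : 1 ≤ Nat.totient L := Nat.totient_pos.2 hL0
      have h4 : w < 2 ^ w := Nat.lt_two_pow_self
      have h5 : 2 ^ w ≤ 2 ^ (Nat.totient L * w) := Nat.pow_le_pow_right (by norm_num) (by nlinarith)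
      nlinarith
    obtain ⟨t, ht⟩ := (Nat.modEq_iff_dvd' (by omega)).1 h3.symm
    have ht0 : 0 < t := by
      rcases Nat.eq_zero_or_pos t with h0 | h0
      · subst h0; omega
      · exact h0
    have e1 : 2 ^ (Nat.totient L * w) * v = 3 * N1 * (3 ^ (β + 1) * t) + (3 * s + 2) := by
      have e2 : L * t = 3 * N1 * (3 ^ (β + 1) * t) := by
        rw [hbq, hL, hM]; ring
      rw [← e2, ← ht]
      omega
    rw [← dbl_pow hg (Nat.totient L * w) v hv, e1]
    exact h2 _ (by positivity)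
  have h3 := all_of_good hg hqcop hqodd (by omega) htot (by omega) hgood
  intro x
  induction x using Nat.strong_induction_on with
  | _ x ih =>
    intro hx
    rcases Nat.mod_two_eq_zero_or_one x with h2 | h2
    · obtain ⟨m, rfl⟩ : ∃ m, x = 2 * m := ⟨x / 2, by omega⟩
      rw [hg.dbl m (by omega)]
      exact ih m (by omega) (by omega)
    · rw [← odd_rule hg h2]
      exact h3 _ (by omega) (by omega)

end Pool.Agent.W_e21d3a_h20
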