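import Mathlib
import Pool.Agent.W_e21d3a_h20.Cob
import Pool.Agent.W_e21d3a_h20.Monks

set_option autoImplicit false

namespace Pool.Agent.W_e21d3a_h20

variable {g : ℕ → Prop}

/-- two words of the same length act in the same way -/
theorem exists_pair {k : ℕ} (hk : 2 ≤ k) {F : Type} [Finite F] {c : ℕ → F} (h : Aut g k F c) :
    ∃ j ρ ρ', ρ < ρ' ∧ ρ' < k ^ j ∧ ∀ x, 0 < x → c (k ^ j * x + ρ) = c (k ^ j * x + ρ') := by
  classical
  have : Fintype F := Fintype.ofFinite F
  let Φ : ∀ j : ℕ, ℕ → (F → F → Prop) := fun j ρ f f' => ∃ x, 0 < x ∧ c x = f ∧ c (k ^ j * x + ρ) = f'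
  have : Fintype (F → F → Prop) := Fintype.ofFinite _
  set j := Fintype.card (F → F → Prop) with hj
  have hcard : Fintype.card (F → F → Prop) < Fintype.card (Fin (k ^ j)) := by
    rw [Fintype.card_fin, ← hj]
    exact Nat.lt_pow_self (by omega)
  obtain ⟨ρ, ρ', hne, he⟩ := Fintype.exists_ne_map_eq_of_card_lt (fun r : Fin (k ^ j) => Φ j r) hcard
  have key : ∀ r r' : Fin (k ^ j), Φ j r = Φ j r' → ∀ x, 0 < x → c (k ^ j * x + r) = c (k ^ j * x + r') := by
    intro r r' he x hx
    have h1 : Φ j r (c x) (c (k ^ j * x + r)) := ⟨x, hx, rfl, rfl⟩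
    rw [he] at h1
    obtain ⟨y, hy, hc1, hc2⟩ := h1
    rw [← hc2]
    exact h.steps (by omega) j y x hy hx hc1 r' r'.2
  rcases lt_or_gt_of_ne (fun hh => hne (Fin.ext hh) : (ρ : ℕ) ≠ ρ') with hlt | hlt
  · exact ⟨j, ρ, ρ', hlt, ρ'.2, key ρ ρ' he⟩
  · exact ⟨j, ρ', ρ, hlt, ρ.2, key ρ' ρ he.symm⟩

/-- value of a word over the two letters `ρ`, `ρ + d` in base `q`, lowest letter first -/
def val (q ρ d : ℕ) : List Bool → ℕ
  | [] => 0
  | b :: L => q * val q ρ d L + (ρ + (if b then d else 0))

theorem val_lt {q ρ d : ℕ} (h : ρ + d < q) (L : List Bool) : val q ρ d L < q ^ L.length := by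
  induction L with
  | nil => simp [val]
  | cons b L ih =>
    have h1 : ρ + (if b then d else 0) < q := by split <;> omega
    simp only [val, List.length_cons, pow_succ]
    calc q * val q ρ d L + (ρ + (if b then d else 0)) < q * val q ρ d L + q := by omega
      _ = q * (val q ρ d L + 1) := by ring
      _ ≤ q * q ^ L.length := Nat.mul_le_mul_left _ ih
      _ = _ := by ring

theorem val_append (q ρ d : ℕ) (L L' : List Bool) :
    val q ρ d (L ++ L') = val q ρ d L + q ^ L.length * val q ρ d L' := by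
  induction L with
  | nil => simp [val]
  | cons b L ih => simp only [List.cons_append, val, ih, List.length_cons, pow_succ]; ring

/-- the block which starts with `b` and goes on with `n` times `false` -/
def blk (b : Bool) (n : ℕ) : List Bool := b :: List.replicate n false

theorem val_blk (q ρ d n : ℕ) : val q ρ d (blk true n) = val q ρ d (blk false n) + d := by
  simp [blk, val]; ring

/-- `m` blocks starting with `true` and `m'` blocks starting with `false` -/
def word (n : ℕ) : ℕ → ℕ → List Bool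
  | 0, 0 => []
  | 0, m' + 1 => blk false n ++ word n 0 m'
  | m + 1, m' => blk true n ++ word n m m'

theorem word_length (n : ℕ) : ∀ m m', (word n m m').length = (n + 1) * (m + m') := by
  intro m
  induction m with
  | zero =>
    intro m'
    induction m' with
    | zero => simp [word]
    | succ m' ih => simp only [word, List.length_append, ih, blk, List.length_cons, List.length_replicate]; ring
  | succ m ih =>
    intro m'
    simp only [word, List.length_append, ih, blk, List.length_cons, List.length_replicate]; ring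

theorem val_word (q ρ d n A : ℕ) (hq : q ^ (n + 1) ≡ 1 [MOD A]) : ∀ m m',
    val q ρ d (word n m m') ≡ (m + m') * val q ρ d (blk false n) + m * d [MOD A] := by
  have hlen : ∀ b, (blk b n).length = n + 1 := by intro b; simp [blk]
  intro m
  induction m with
  | zero =>
    intro m'
    induction m' with
    | zero => simp [word, val]; rfl
    | succ m' ih =>
      simp only [word, val_append, hlen]
      have h1 := Nat.ModEq.mul hq ih
      have h2 := Nat.ModEq.add_left (val q ρ d (blk false n)) h1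
      have h3 : val q ρ d (blk false n) + 1 * ((0 + m') * val q ρ d (blk false n) + 0 * d) =
          (0 + (m' + 1)) * val q ρ d (blk false n) + 0 * d := by ring
      rwa [h3] at h2
  | succ m ih =>
    intro m'
    simp only [word, val_append, hlen, val_blk]
    have h1 := Nat.ModEq.mul hq (ih m')
    have h2 := Nat.ModEq.add_left (val q ρ d (blk false n) + d) h1
    have h3 : val q ρ d (blk false n) + d + 1 * ((m + m') * val q ρ d (blk false n) + m * d) =
        (m + 1 + m') * val q ρ d (blk false n) + (m + 1) * d := by ring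
    rwa [h3] at h2

theorem odd_pow_mod {q : ℕ} (hq : Odd q) (i : ℕ) : q ^ (2 ^ i) ≡ 1 [MOD 2 ^ i] := by
  have hcop : Nat.Coprime q (2 ^ i) := Nat.Coprime.pow_right _ (Nat.coprime_two_right.2 hq)
  have h1 := Nat.ModEq.pow_totient hcop
  have h2 : Nat.totient (2 ^ i) ∣ 2 ^ i := by
    rcases Nat.eq_zero_or_pos i with h0 | h0
    · subst h0; simp
    · rw [Nat.totient_prime_pow Nat.prime_two h0]
      simp only [Nat.add_one_sub_one, mul_one]
      exact pow_dvd_pow 2 (by omega)
  obtain ⟨t, ht⟩ := h2
  have := h1.pow t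
  rw [one_pow, ← pow_mul, ← ht] at this
  exact this

/-- changing letters does not change the class -/
theorem class_val {F : Type} {c : ℕ → F} {q ρ d : ℕ} (hq : 0 < q)
    (hstep : ∀ x y, 0 < x → 0 < y → c x = c y → ∀ z, z < q → c (q * x + z) = c (q * y + z))
    (hpair : ∀ x, 0 < x → c (q * x + ρ) = c (q * x + (ρ + d))) (hρ : ρ + d < q) :
    ∀ L L' : List Bool, L.length = L'.length → ∀ x, 0 < x →
      c (q ^ L.length * x + val q ρ d L) = c (q ^ L'.length * x + val q ρ d L') := by
  intro L
  induction L with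
  | nil =>
    intro L' hL x hx
    have : L' = [] := List.length_eq_zero_iff.1 (by simpa using hL.symm)
    subst this; rfl
  | cons b L ih =>
    intro L' hL x hx
    cases L' with
    | nil => simp at hL
    | cons b' L' =>
      have hL' : L.length = L'.length := by simpa using hL
      have e : ∀ (b : Bool) (L : List Bool), q ^ (b :: L).length * x + val q ρ d (b :: L) =
          q * (q ^ L.length * x + val q ρ d L) + (ρ + (if b then d else 0)) := by
        intro b L
        simp only [val, List.length_cons, pow_succ]; ring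
      rw [e, e]
      have hb : ∀ (b : Bool) (Y : ℕ), 0 < Y → c (q * Y + (ρ + (if b then d else 0))) = c (q * Y + ρ) := by
        intro b Y hY
        cases b
        · simp
        · simpa using (hpair Y hY).symm
      rw [hb b _ (by positivity), hb b' _ (by positivity)]
      exact hstep _ _ (by positivity) (by positivity) (ih L' hL' x hx) ρ (by omega)

/-- odd bases -/
theorem const_odd (hg : Inv g) {k : ℕ} (hk : 3 ≤ k) (hkodd : Odd k) {F : Type} [Finite F] {c : ℕ → F}
    (h : Aut g k F c) : (∀ n, 0 < n → g n) ∨ (∀ n, 0 < n → ¬ g n) := by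
  classical
  obtain ⟨j, ρ, ρ', hlt, hρ', hpair⟩ := exists_pair (by omega) h
  obtain ⟨d, hd0, rfl⟩ : ∃ d, 0 < d ∧ ρ' = ρ + d := ⟨ρ' - ρ, by omega, by omega⟩
  set q := k ^ j with hq
  have hqodd : Odd q := hkodd.pow
  have hq0 : 0 < q := hqodd.pos
  have hk0 : 0 < k := by omega
  have hstep : ∀ x y, 0 < x → 0 < y → c x = c y → ∀ z, z < q → c (q * x + z) = c (q * y + z) :=
    h.steps hk0 j
  have hblock : ∀ t x y, 0 < x → 0 < y → c x = c y → ∀ z, z < q ^ t →
      (g (q ^ t * x + z) ↔ g (q ^ t * y + z)) := by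
    intro t x y hx hy hc z hz
    rw [hq, ← pow_mul] at hz ⊢
    exact h.blocks hk0 (j * t) x y hx hy hc z hz
  have hclass := class_val hq0 hstep hpair hρ'
  -- the words
  let W : ℕ → ℕ → List Bool := fun i m => word (2 ^ i - 1) m (2 ^ i - m)
  have hWlen : ∀ i m, m ≤ 2 ^ i → (W i m).length = 2 ^ i * 2 ^ i := by
    intro i m hm
    have h2 : 0 < 2 ^ i := by positivity
    simp only [W, word_length]
    rw [Nat.sub_add_cancel h2, Nat.add_sub_cancel' hm]
  have hWval : ∀ i m, m ≤ 2 ^ i → val q ρ d (W i m) ≡ m * d [MOD 2 ^ i] := by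
    intro i m hm
    have h2 : 0 < 2 ^ i := by positivity
    have h3 := val_word q ρ d (2 ^ i - 1) (2 ^ i) (by rw [Nat.sub_add_cancel h2]; exact odd_pow_mod hqodd i)
      m (2 ^ i - m)
    rw [Nat.add_sub_cancel' hm] at h3
    refine h3.trans ?_
    simp [Nat.ModEq]
  -- the functions h_i
  let hh : ℕ → ℕ → Prop := fun i x => g (q ^ (2 ^ i * 2 ^ i) * x + val q ρ d (W i 0))
  have hhW : ∀ i m x, m ≤ 2 ^ i → 0 < x → (hh i x ↔ g (q ^ (2 ^ i * 2 ^ i) * x + val q ρ d (W i m))) := by
    intro i m x hm hx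
    have h1 := hclass (W i 0) (W i m) (by rw [hWlen i m hm, hWlen i 0 (Nat.zero_le _)]) x hx
    rw [hWlen i m hm, hWlen i 0 (Nat.zero_le _)] at h1
    exact h.acc _ _ (by positivity) (by positivity) h1
  -- infinitely many i with the same function
  let col' : ℕ → (F → Prop) := fun i f => ∃ x, 0 < x ∧ c x = f ∧ hh i x
  have hcol : ∀ i x, 0 < x → (hh i x ↔ col' i (c x)) := by
    intro i x hx
    constructor
    · intro h1; exact ⟨x, hx, rfl, h1⟩
    · rintro ⟨y, hy, hc, h1⟩
      have hv : val q ρ d (W i 0) < q ^ (2 ^ i * 2 ^ i) := by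
        have := val_lt hρ' (W i 0)
        rwa [hWlen i 0 (Nat.zero_le _)] at this
      exact (hblock _ y x hy hx hc _ hv).1 h1
  obtain ⟨y, hy⟩ := Finite.exists_infinite_fiber col'
  have hyinf : (col' ⁻¹' {y}).Infinite := Set.infinite_coe_iff.1 hy
  obtain ⟨i₀, hi₀⟩ := hyinf.nonempty
  have hsame : ∀ i, ∃ i', i ≤ i' ∧ ∀ x, 0 < x → (hh i₀ x ↔ hh i' x) := by
    intro i
    obtain ⟨i', hi', hlt⟩ := hyinf.exists_gt i
    refine ⟨i', hlt.le, fun x hx => ?_⟩
    rw [hcol i₀ x hx, hcol i' x hx]
    have e1 : col' i₀ = y := hi₀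
    have e2 : col' i' = y := hi'
    rw [e1, e2]
  -- refined classes
  let c' : ℕ → (Fin d → F) := fun x s => c (d * x + s)
  -- the new function
  let h' : ℕ → Prop := fun x => hh i₀ (d * x)
  have H2 : ∀ w, PA h' c' (2 ^ w) := by
    intro w x y hx hy hc z hz
    obtain ⟨i, hwi, hi⟩ := hsame w
    set t := 2 ^ i * 2 ^ i with ht
    have h2i : 2 ^ w ≤ 2 ^ i := Nat.pow_le_pow_right (by norm_num) hwi
    have hz' : z ≤ 2 ^ i := by omega
    set L := W i (2 ^ i - z) with hL
    have hLlt : val q ρ d L < q ^ t := by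
      have := val_lt hρ' L
      rwa [hL, hWlen i _ (Nat.sub_le _ _), ← ht] at this
    have hqt : q ^ t ≡ 1 [MOD 2 ^ i] := by
      rw [ht, pow_mul]
      have := (odd_pow_mod hqodd i).pow (2 ^ i)
      simpa using this
    -- divisibility
    have hdiv : 2 ^ w ∣ q ^ t * (d * z) + val q ρ d L := by
      have h1 : q ^ t * (d * z) + val q ρ d L ≡ 1 * (d * z) + (2 ^ i - z) * d [MOD 2 ^ i] :=
        Nat.ModEq.add (hqt.mul_right _) (hWval i _ (Nat.sub_le _ _))
      have h2 : 1 * (d * z) + (2 ^ i - z) * d = 2 ^ i * d := by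
        have h3 : (2 ^ i - z) * d + z * d = 2 ^ i * d := by
          rw [← add_mul, Nat.sub_add_cancel hz']
        rw [← h3]; ring
      rw [h2] at h1
      have h4 : 2 ^ i ∣ q ^ t * (d * z) + val q ρ d L := by
        rw [← Nat.modEq_zero_iff_dvd]
        refine h1.trans ?_
        simp [Nat.ModEq]
      exact (pow_dvd_pow 2 hwi).trans h4
    obtain ⟨r, hr⟩ := hdiv
    have hkey : ∀ x, 0 < x → (h' (2 ^ w * x + z) ↔ g (q ^ t * (d * x) + r)) := by
      intro x hx
      have hpos : 0 < d * (2 ^ w * x + z) := by positivity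
      have e1 := (hi _ hpos).trans (hhW i (2 ^ i - z) _ (Nat.sub_le _ _) hpos)
      have e2 : q ^ t * (d * (2 ^ w * x + z)) + val q ρ d L = 2 ^ w * (q ^ t * (d * x) + r) := by
        calc q ^ t * (d * (2 ^ w * x + z)) + val q ρ d L
            = 2 ^ w * (q ^ t * (d * x)) + (q ^ t * (d * z) + val q ρ d L) := by ring
          _ = _ := by rw [hr]; ring
      rw [← ht, ← hL, e2, dbl_pow hg w _ (by positivity)] at e1
      exact e1
    rw [hkey x hx, hkey y hy]
    -- r < q^t * d
    have hqt0 : 0 < q ^ t := by positivity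
    have hr1 : r / q ^ t < d := by
      apply (Nat.div_lt_iff_lt_mul hqt0).2
      have h2w : 0 < 2 ^ w := by positivity
      have h5 : 2 ^ w * r < 2 ^ w * (d * q ^ t) := by
        rw [← hr]
        have h6 : q ^ t * (d * z) + q ^ t ≤ 2 ^ w * (d * q ^ t) := by
          have h7 : z + 1 ≤ 2 ^ w := hz
          have h8 : d * z + 1 ≤ d * 2 ^ w := by nlinarith
          nlinarith [Nat.mul_le_mul_left (q ^ t) h8]
        omega
      exact Nat.lt_of_mul_lt_mul_left h5
    have e3 : ∀ x, q ^ t * (d * x) + r = q ^ t * (d * x + r / q ^ t) + r % q ^ t := by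
      intro x
      calc q ^ t * (d * x) + r = q ^ t * (d * x) + (q ^ t * (r / q ^ t) + r % q ^ t) := by
            rw [Nat.div_add_mod]
        _ = _ := by ring
    rw [e3 x, e3 y]
    have hcc : c (d * x + r / q ^ t) = c (d * y + r / q ^ t) := congrFun hc ⟨r / q ^ t, hr1⟩
    exact hblock t _ _ (by positivity) (by positivity) hcc _ (Nat.mod_lt _ hqt0)
  have HK : ∀ u, PA h' c' (k ^ u) := by
    intro u x y hx hy hc z hz
    set t := 2 ^ i₀ * 2 ^ i₀ with ht
    have hku : 0 < k ^ u := by positivity
    have hv : val q ρ d (W i₀ 0) < q ^ t := by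
      have := val_lt hρ' (W i₀ 0)
      rwa [hWlen i₀ 0 (Nat.zero_le _)] at this
    have hr1 : d * z / k ^ u < d := by
      apply (Nat.div_lt_iff_lt_mul hku).2
      exact Nat.mul_lt_mul_of_pos_left hz hd0
    have e3 : ∀ x, d * (k ^ u * x + z) = k ^ u * (d * x + d * z / k ^ u) + d * z % k ^ u := by
      intro x
      calc d * (k ^ u * x + z) = k ^ u * (d * x) + d * z := by ring
        _ = k ^ u * (d * x) + (k ^ u * (d * z / k ^ u) + d * z % k ^ u) := by rw [Nat.div_add_mod]
        _ = _ := by ring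
    have hcc : c (d * x + d * z / k ^ u) = c (d * y + d * z / k ^ u) := congrFun hc ⟨d * z / k ^ u, hr1⟩
    have hc2 := h.steps hk0 u _ _ (by positivity) (by positivity) hcc (d * z % k ^ u) (Nat.mod_lt _ hku)
    rw [← e3 x, ← e3 y] at hc2
    exact hblock t _ _ (by positivity) (by positivity) hc2 _ hv
  obtain ⟨p, hp, V, hV⟩ := cobham (c := c') hk hkodd H2 HK
  -- constant on an arithmetic progression
  set A := q ^ (2 ^ i₀ * 2 ^ i₀) with hA
  have hA0 : 0 < A := by positivity
  have hmul : ∀ n, (h' (V + n * p) ↔ h' V) := by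
    intro n
    induction n with
    | zero => simp
    | succ n ih =>
      rw [show V + (n + 1) * p = V + n * p + p by ring, hV _ (by omega), ih]
  have hm := monks (G := h' V) hg (N := A * d * p) (R := A * (d * V) + val q ρ d (W i₀ 0))
    (by positivity) (by
      intro n hn
      rw [← hmul n]
      have e : A * d * p * n + (A * (d * V) + val q ρ d (W i₀ 0)) =
          A * (d * (V + n * p)) + val q ρ d (W i₀ 0) := by ring
      rw [e])
  by_cases hG : h' V
  · exact Or.inl fun n hn => (hm n hn).2 hG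
  · exact Or.inr fun n hn h1 => hG ((hm n hn).1 h1)

end Pool.Agent.W_e21d3a_h20
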