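import Mathlib
import Pool.Agent.W_e21d3a_h20.OddBase

set_option autoImplicit false

namespace Pool.Agent.W_e21d3a_h20

/-- in every base: an invariant set recognised by a finite automaton is trivial -/
theorem main_all {k : ℕ} (hk : 2 ≤ k) {B : Set ℕ}
    (hB : ∀ n, 0 < n → (n ∈ B ↔ col n ∈ B)) (h : RecogLSB k B ∨ RecogMSB k B) :
    (∀ n, 0 < n → n ∈ B) ∨ (∀ n, 0 < n → n ∉ B) := by
  have hg := inv_of hB
  obtain ⟨F, hF, c, hc⟩ : ∃ (F : Type) (_ : Finite F) (c : ℕ → F), Aut (fun n => n ∈ B) k F c := by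
    rcases h with h | h
    · exact aut_of_LSB (by omega) h
    · exact aut_of_MSB (by omega) h
  rcases Nat.even_or_odd' k with ⟨l, rfl | rfl⟩
  · exact const_even hg (by omega) hc
  · exact const_odd hg (by omega) ⟨l, rfl⟩ hc

end Pool.Agent.W_e21d3a_h20
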