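import Mathlib
import Pool.Agent.W_e21d3a_h20.Final

set_option autoImplicit false

/-!
Former hand-in MP_e21d3a_lc.FiniteAutomata, superseded by the hand-in Pushdown of helper6 (not a hand-in any more).

# MP_e21d3a_lc : the Collatz set `A` and finite automata

Let `k ≥ 2`. Every set of positive integers which is invariant under the Collatz map and is recognised by a finite
automaton reading base `k` digits (in either direction) is empty or contains all positive integers. Hence `A` is
recognised by a finite automaton in base `k` if and only if the Collatz conjecture holds.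

Proof. Let `T` be the shortcut map. For `r < 2^i` the class `2^i n + r` is mapped by `T^i` to `3^m n + T^i r`.

Even bases `k = 2l` : for every `b < 3^m` prime to 3 and every `i ≥ 4m` there is `r < 2^i` with `T^i r = b`. In this way a finite
index of the prefix congruence in base `k` gives, for the same classes of prefixes, invariance of blocks of length
`3^M 2^s l^j` on the integers prime to 3. Comparing two scales `3^(u+1) l^j` and `3 * 2^w l^j` which are very close to
each other gives an eventual period on the integers prime to 3 (the idea of Krebs' proof of Cobham's theorem). A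
minimal period is three times a number `q` prime to 6, and invariance under `x ↦ 2x` and `x ↦ 3x+1` modulo `q`
(whose commutator is the translation by one) shows that the set is constant.

Odd bases : there are two words of the same length and with values `ρ < ρ + d` which act in the same way on the
automaton. Products of many such words and the invariance under doubling show that a function `h(x) = g(A d x + R)`,
`g` the characteristic function, has a finite kernel in base 2, and it has one in base `k`. By Cobham's theorem for `2` and `k` it is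
eventually periodic, so `g` is constant on an arithmetic progression. Arithmetic progressions are sufficient
(Monks 2006), so `g` is constant.
-/

namespace Pool.Agent.W_e21d3a_h20.FiniteAutomata

/-- the Collatz map -/
def col (m : ℕ) : ℕ := if m % 2 = 0 then m / 2 else 3 * m + 1

/-- the set of positive integers whose trajectory reaches 1 -/
def A : Set ℕ := {n | 0 < n ∧ ∃ k : ℕ, col^[k] n = 1}

/-- some finite automaton decides membership of `n > 0` in `B` from the base `k` digits of `n`, read from
the least significant digit on -/
def RecogLSB (k : ℕ) (B : Set ℕ) : Prop :=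
  ∃ (σ : Type) (_ : Fintype σ) (M : DFA (Fin k) σ), ∀ n, 0 < n →
    ∀ w : List (Fin k), w.map Fin.val = Nat.digits k n → (w ∈ M.accepts ↔ n ∈ B)

/-- the same, read from the most significant digit on -/
def RecogMSB (k : ℕ) (B : Set ℕ) : Prop :=
  ∃ (σ : Type) (_ : Fintype σ) (M : DFA (Fin k) σ), ∀ n, 0 < n →
    ∀ w : List (Fin k), w.map Fin.val = (Nat.digits k n).reverse → (w ∈ M.accepts ↔ n ∈ B)

theorem invariant_trivial {k : ℕ} (hk : 2 ≤ k) {B : Set ℕ}
    (hB : ∀ n, 0 < n → (n ∈ B ↔ col n ∈ B)) (h : RecogLSB k B ∨ RecogMSB k B) :
    (∀ n, 0 < n → n ∈ B) ∨ (∀ n, 0 < n → n ∉ B) :=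
  W_e21d3a_h20.main_all hk hB h

theorem A_invariant : ∀ n, 0 < n → (n ∈ A ↔ col n ∈ A) := by
  intro n hn
  constructor
  · rintro ⟨_, k, hk⟩
    refine ⟨?_, ?_⟩
    · unfold col; split <;> omega
    · cases k with
      | zero =>
        have : n = 1 := hk
        subst this
        exact ⟨2, by decide⟩
      | succ k => exact ⟨k, hk⟩
  · rintro ⟨_, k, hk⟩
    exact ⟨hn, k + 1, hk⟩

theorem one_mem : 1 ∈ A := ⟨one_pos, 0, rfl⟩

/-- if everything is in `B` then the automaton which accepts all words does it -/
theorem recog_of_all {k : ℕ} {B : Set ℕ} (h : ∀ n, 0 < n → n ∈ B) : RecogLSB k B ∧ RecogMSB k B := by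
  refine ⟨⟨Unit, inferInstance, ⟨fun _ _ => (), (), Set.univ⟩, fun n hn w _ => ?_⟩,
    ⟨Unit, inferInstance, ⟨fun _ _ => (), (), Set.univ⟩, fun n hn w _ => ?_⟩⟩
  · exact ⟨fun _ => h n hn, fun _ => Set.mem_univ _⟩
  · exact ⟨fun _ => h n hn, fun _ => Set.mem_univ _⟩

theorem result :
    (∀ k : ℕ, 2 ≤ k → ∀ B : Set ℕ, (∀ n, 0 < n → (n ∈ B ↔ col n ∈ B)) →
      (RecogLSB k B ∨ RecogMSB k B) → (∀ n, 0 < n → n ∈ B) ∨ (∀ n, 0 < n → n ∉ B)) ∧
    (∀ k : ℕ, 2 ≤ k →
      (RecogLSB k A ↔ ∀ n, 0 < n → n ∈ A) ∧ (RecogMSB k A ↔ ∀ n, 0 < n → n ∈ A)) := by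
  refine ⟨fun k hk B hB h => invariant_trivial hk hB h, fun k hk => ?_⟩
  have key : RecogLSB k A ∨ RecogMSB k A → ∀ n, 0 < n → n ∈ A := by
    intro h
    rcases invariant_trivial hk A_invariant h with h | h
    · exact h
    · exact absurd one_mem (h 1 one_pos)
  exact ⟨⟨fun h => key (Or.inl h), fun h => (recog_of_all h).1⟩,
    ⟨fun h => key (Or.inr h), fun h => (recog_of_all h).2⟩⟩

end Pool.Agent.W_e21d3a_h20.FiniteAutomata
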